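import Pool.Agent.Helper58.TB.Near
import Pool.Agent.Helper67.TY.Root

/-!
MP_8ee768_co, project TH-Y', TB0: the classification of the near-STS(11) in the form of
`Helper67.TY.NearOK`.
-/

set_option autoImplicit false

namespace Pool.Agent.Helper58.TB

open Finset
open Pool.Agent.Helper97.CV
open Pool.Agent.Helper79.CV
open Pool.Agent.Helper33.CV (Keeps)
open Pool.Agent.Helper82.TY (below sub_iff_below)

theorem nearOK : Pool.Agent.Helper67.TY.NearOK := by
  intro E hE hc
  have hV : ((univ : Finset (Fin 13)).erase 12).erase 11 = below 11 := by decide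
  have hE' : OddFam 2 ((univ.erase (12 : Fin 13)).erase 11) E := by rwa [hV]
  obtain ⟨σ, h12, h11, h⟩ := near_sts (show (12 : Fin 13) ≠ 11 by decide) hE' hc
  refine ⟨σ, h12, h11, ?_⟩
  have hk : Keeps 11 σ := by
    intro a ha
    have h1 : a ≠ 12 := fun h => by rw [h] at ha; exact absurd ha (by decide)
    have h2 : a ≠ 11 := fun h => by rw [h] at ha; exact absurd ha (by decide)
    have h3 : σ a ≠ 12 := fun h => h1 (σ.injective (h.trans h12.symm))
    have h4 : σ a ≠ 11 := fun h => h2 (σ.injective (h.trans h11.symm))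
    have h5 : (σ a).val ≠ 12 := fun h => h3 (Fin.ext h)
    have h6 : (σ a).val ≠ 11 := fun h => h4 (Fin.ext h)
    have := (σ a).isLt
    omega
  have h3 := hE.map σ
  rw [mapS_below hk] at h3
  have hsub : ∀ s ∈ mapF σ E, Sub 11 3 s := fun s hs => sub_iff_below.2 (h3.1 s hs)
  have h4 := fam_enc (by norm_num : 11 ≤ 13) hsub
  rcases h with h | h
  · left
    rw [← h4, h]
    rfl
  · right
    rw [← h4, h]
    rfl

end Pool.Agent.Helper58.TB
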