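import Pool.Agent.Helper58.TB.Search
set_option autoImplicit false
namespace Pool.Agent.Helper58.TB
/-- the groups -/
def groups : List (ℕ × List (ℕ × ℕ × ℕ)) := [
  (0, [(0, 1, 2), (1, 3, 4), (4, 6, 7), (10, 10, 11), (20, 15, 16), (35, 21, 22), (56, 28, 29), (84, 36, 37)]),
  (1, [(2, 3, 5), (5, 6, 8), (11, 10, 12), (21, 15, 17), (36, 21, 23), (57, 28, 30), (85, 36, 38)]),
  (3, [(7, 6, 9), (13, 10, 13), (23, 15, 18), (38, 21, 24), (59, 28, 31), (87, 36, 39)]),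
  (6, [(16, 10, 14), (26, 15, 19), (41, 21, 25), (62, 28, 32), (90, 36, 40)]),
  (10, [(30, 15, 20), (45, 21, 26), (66, 28, 33), (94, 36, 41)]),
  (15, [(50, 21, 27), (71, 28, 34), (99, 36, 42)]),
  (21, [(77, 28, 35), (105, 36, 43)]),
  (28, [(112, 36, 44)]),
  (36, []),
  (2, [(3, 4, 5), (6, 7, 8), (12, 11, 12), (22, 16, 17), (37, 22, 23), (58, 29, 30), (86, 37, 38)]),
  (4, [(8, 7, 9), (14, 11, 13), (24, 16, 18), (39, 22, 24), (60, 29, 31), (88, 37, 39)]),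
  (7, [(17, 11, 14), (27, 16, 19), (42, 22, 25), (63, 29, 32), (91, 37, 40)]),
  (11, [(31, 16, 20), (46, 22, 26), (67, 29, 33), (95, 37, 41)]),
  (16, [(51, 22, 27), (72, 29, 34), (100, 37, 42)]),
  (22, [(78, 29, 35), (106, 37, 43)]),
  (29, [(113, 37, 44)]),
  (37, []),
  (5, [(9, 8, 9), (15, 12, 13), (25, 17, 18), (40, 23, 24), (61, 30, 31), (89, 38, 39)]),
  (8, [(18, 12, 14), (28, 17, 19), (43, 23, 25), (64, 30, 32), (92, 38, 40)]),
  (12, [(32, 17, 20), (47, 23, 26), (68, 30, 33), (96, 38, 41)]),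
  (17, [(52, 23, 27), (73, 30, 34), (101, 38, 42)]),
  (23, [(79, 30, 35), (107, 38, 43)]),
  (30, [(114, 38, 44)]),
  (38, []),
  (9, [(19, 13, 14), (29, 18, 19), (44, 24, 25), (65, 31, 32), (93, 39, 40)]),
  (13, [(33, 18, 20), (48, 24, 26), (69, 31, 33), (97, 39, 41)]),
  (18, [(53, 24, 27), (74, 31, 34), (102, 39, 42)]),
  (24, [(80, 31, 35), (108, 39, 43)]),
  (31, [(115, 39, 44)]),
  (39, []),
  (14, [(34, 19, 20), (49, 25, 26), (70, 32, 33), (98, 40, 41)]),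
  (19, [(54, 25, 27), (75, 32, 34), (103, 40, 42)]),
  (25, [(81, 32, 35), (109, 40, 43)]),
  (32, [(116, 40, 44)]),
  (40, []),
  (20, [(55, 26, 27), (76, 33, 34), (104, 41, 42)]),
  (26, [(82, 33, 35), (110, 41, 43)]),
  (33, [(117, 41, 44)]),
  (41, []),
  (27, [(83, 34, 35), (111, 42, 43)]),
  (34, [(118, 42, 44)]),
  (42, []),
  (35, [(119, 43, 44)]),
  (43, []),
  (44, [])]
def need01 : ℕ := 103161669922433957463675222
def need02 : ℕ := 103161669922433957463675228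
end Pool.Agent.Helper58.TB
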