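import Mathlib

/-!
MP_8ee768_co, project TH-Y', TB0: a small exact cover search for triples on ten points.

State: `need` = packed numbers (base 4) saying how often each pair has still to be covered,
`cho` = code of the triples already chosen. The triples are grouped by one of their pairs.
-/

set_option autoImplicit false

namespace Pool.Agent.Helper58.TB

/-- digit in base 4 -/
def digit (x p : ℕ) : ℕ := Nat.mod (Nat.div x (Nat.pow 4 p)) 4

/-- weight of a triple with the pairs `p`, `q`, `r` -/
def wt (p q r : ℕ) : ℕ := Nat.add (Nat.pow 4 p) (Nat.add (Nat.pow 4 q) (Nat.pow 4 r))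

/-- run through the triples of one group (all contain the pair `p`) -/
noncomputable def step (p : ℕ) (k : ℕ → ℕ → List ℕ → List ℕ) (ss : List (ℕ × ℕ × ℕ)) :
    ℕ → ℕ → List ℕ → List ℕ :=
  List.rec (motive := fun _ => ℕ → ℕ → List ℕ → List ℕ)
    (fun need cho acc => Bool.rec acc (k need cho acc) (Nat.beq (digit need p) 0))
    (fun s _ ih need cho acc =>
      Bool.rec
        (Bool.rec
          (Bool.rec
            (ih (Nat.sub need (wt p s.2.1 s.2.2)) (Nat.add cho (Nat.pow 2 s.1))
              (ih need cho acc))
            (ih need cho acc)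
            (Nat.beq (digit need s.2.2) 0))
          (ih need cho acc)
          (Nat.beq (digit need s.2.1) 0))
        (k need cho acc)
        (Nat.beq (digit need p) 0)) ss

/-- run through all groups -/
noncomputable def srch (gs : List (ℕ × List (ℕ × ℕ × ℕ))) : ℕ → ℕ → List ℕ → List ℕ :=
  List.rec (motive := fun _ => ℕ → ℕ → List ℕ → List ℕ)
    (fun _ cho acc => cho :: acc)
    (fun g _ ih => step g.1 ih g.2) gs

end Pool.Agent.Helper58.TB
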