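import Mathlib
import Pool.Agent.Helper58.TB.Search

/-!
MP_8ee768_co, project TH-Y', TB0: soundness of the exact cover search.
-/

set_option autoImplicit false

namespace Pool.Agent.Helper58.TB

open Finset

/-- a step: index of the triple and its three pairs -/
abbrev Stp := ℕ × ℕ × ℕ × ℕ

/-- the pair `p` lies in the triple of `s` -/
def has (s : Stp) (p : ℕ) : Prop := p = s.2.1 ∨ p = s.2.2.1 ∨ p = s.2.2.2

instance (s : Stp) (p : ℕ) : Decidable (has s p) := by
  unfold has
  infer_instance

/-- number of chosen triples of the list which contain the pair `p` -/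
def cN (N : ℕ) (td : List Stp) (p : ℕ) : ℕ :=
  (td.map fun s => if N.testBit s.1 = true ∧ has s p then 1 else 0).sum

/-- packed numbers -/
def wN (N : ℕ) (td : List Stp) : ℕ := ∑ p ∈ range 45, cN N td p * 4 ^ p

/-- code of the chosen triples of the list -/
def codeN (N : ℕ) (td : List Stp) : ℕ :=
  (td.map fun s => if N.testBit s.1 = true then 2 ^ s.1 else 0).sum

/-- well formed step -/
def okS (s : Stp) : Prop :=
  s.2.1 < 45 ∧ s.2.2.1 < 45 ∧ s.2.2.2 < 45 ∧ s.2.1 ≠ s.2.2.1 ∧ s.2.1 ≠ s.2.2.2 ∧
    s.2.2.1 ≠ s.2.2.2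

instance (s : Stp) : Decidable (okS s) := by
  unfold okS
  infer_instance

theorem cN_cons (N : ℕ) (s : Stp) (td : List Stp) (p : ℕ) :
    cN N (s :: td) p = (if N.testBit s.1 = true ∧ has s p then 1 else 0) + cN N td p := by
  unfold cN
  rw [List.map_cons, List.sum_cons]

theorem codeN_cons (N : ℕ) (s : Stp) (td : List Stp) :
    codeN N (s :: td) = (if N.testBit s.1 = true then 2 ^ s.1 else 0) + codeN N td := by
  unfold codeN
  rw [List.map_cons, List.sum_cons]

theorem sum_has (s : Stp) (h : okS s) :
    ∑ p ∈ range 45, (if has s p then 1 else 0) * 4 ^ p = wt s.2.1 s.2.2.1 s.2.2.2 := by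
  obtain ⟨i, p, q, r⟩ := s
  obtain ⟨h1, h2, h3, h4, h5, h6⟩ := h
  simp only at h1 h2 h3 h4 h5 h6
  have h7 : ∀ x ∈ range 45, (if has (i, p, q, r) x then 1 else 0) * 4 ^ x =
      (if x = p then 4 ^ x else 0) + ((if x = q then 4 ^ x else 0) +
        (if x = r then 4 ^ x else 0)) := by
    intro x _
    unfold has
    simp only
    by_cases a1 : x = p
    · subst a1
      simp [h4, h5]
    · by_cases a2 : x = q
      · subst a2
        simp [h4.symm, h6]
      · by_cases a3 : x = r
        · subst a3
          simp [h5.symm, h6.symm]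
        · simp [a1, a2, a3]
  rw [sum_congr rfl h7, sum_add_distrib, sum_add_distrib, sum_ite_eq', sum_ite_eq', sum_ite_eq',
    if_pos (mem_range.2 h1), if_pos (mem_range.2 h2), if_pos (mem_range.2 h3)]
  rfl

theorem wN_cons (N : ℕ) (s : Stp) (td : List Stp) (h : okS s) :
    wN N (s :: td) =
      (if N.testBit s.1 = true then wt s.2.1 s.2.2.1 s.2.2.2 else 0) + wN N td := by
  unfold wN
  by_cases hb : N.testBit s.1 = true
  · rw [if_pos hb, ← sum_has s h, ← sum_add_distrib]
    refine sum_congr rfl fun p _ => ?_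
    rw [cN_cons, add_mul]
    congr 2
    simp only [hb, true_and]
  · rw [if_neg hb, Nat.zero_add]
    refine sum_congr rfl fun p _ => ?_
    rw [cN_cons, if_neg fun h => hb h.1, Nat.zero_add]

theorem digit_sum (f : ℕ → ℕ) (n j : ℕ) (hj : j < n) (hf : ∀ p, f p ≤ 3) :
    digit (∑ p ∈ range n, f p * 4 ^ p) j = f j := by
  have hlt : ∀ m, ∑ p ∈ range m, f p * 4 ^ p < 4 ^ m := by
    intro m
    induction m with
    | zero => simp
    | succ m ih =>
      rw [sum_range_succ, pow_succ]
      have := hf m
      have h4 : f m * 4 ^ m ≤ 3 * 4 ^ m := Nat.mul_le_mul_right _ this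
      omega
  induction n with
  | zero => omega
  | succ n ih =>
    change (∑ p ∈ range (n + 1), f p * 4 ^ p) / 4 ^ j % 4 = f j
    rw [sum_range_succ]
    rcases Nat.lt_succ_iff_lt_or_eq.1 hj with h | h
    · have h1 : f n * 4 ^ n = 4 ^ j * (4 * (f n * 4 ^ (n - j - 1))) := by
        have h2 : 4 ^ n = 4 ^ j * (4 * 4 ^ (n - j - 1)) := by
          rw [← pow_succ', ← pow_add]
          congr 1
          omega
        rw [h2]
        ring
      rw [h1, Nat.add_mul_div_left _ _ (by positivity), Nat.add_mul_mod_self_left]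
      exact ih h
    · subst h
      rw [Nat.add_mul_div_right _ _ (by positivity), Nat.div_eq_of_lt (hlt j), Nat.zero_add]
      exact Nat.mod_eq_of_lt (by have := hf j; omega)

theorem cN_has_pos {N : ℕ} {td : List Stp} {s : Stp} {p : ℕ} (hs : s ∈ td)
    (hb : N.testBit s.1 = true) (hp : has s p) : 1 ≤ cN N td p := by
  induction td with
  | nil => exact absurd hs List.not_mem_nil
  | cons t td ih =>
    rw [cN_cons]
    rcases List.mem_cons.1 hs with h | h
    · subst h
      rw [if_pos ⟨hb, hp⟩]
      omega
    · have := ih h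
      omega

/-- the invariant -/
def Inv (N : ℕ) (td : List Stp) (need cho : ℕ) : Prop :=
  need = wN N td ∧ N = cho + codeN N td ∧ ∀ p, cN N td p ≤ 3

theorem Inv.digit {N : ℕ} {td : List Stp} {need cho : ℕ} (h : Inv N td need cho) {p : ℕ}
    (hp : p < 45) : digit need p = cN N td p := by
  rw [h.1]
  exact digit_sum _ 45 p hp h.2.2

theorem Inv.skip {N : ℕ} {s : Stp} {td : List Stp} {need cho : ℕ} (hs : okS s)
    (h : Inv N (s :: td) need cho) (hb : ¬ N.testBit s.1 = true) : Inv N td need cho := by
  obtain ⟨h1, h2, h3⟩ := h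
  rw [wN_cons N s td hs, if_neg hb, Nat.zero_add] at h1
  rw [codeN_cons, if_neg hb, Nat.zero_add] at h2
  refine ⟨h1, h2, fun p => ?_⟩
  have h4 := h3 p
  rw [cN_cons] at h4
  omega

theorem Inv.take {N : ℕ} {s : Stp} {td : List Stp} {need cho : ℕ} (hs : okS s)
    (h : Inv N (s :: td) need cho) (hb : N.testBit s.1 = true) :
    Inv N td (need - wt s.2.1 s.2.2.1 s.2.2.2) (cho + 2 ^ s.1) := by
  obtain ⟨h1, h2, h3⟩ := h
  rw [wN_cons N s td hs, if_pos hb] at h1
  rw [codeN_cons, if_pos hb] at h2
  refine ⟨by omega, by omega, fun p => ?_⟩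
  have h4 := h3 p
  rw [cN_cons] at h4
  omega

theorem Inv.skips {N p : ℕ} {ss : List (ℕ × ℕ × ℕ)} {td : List Stp} {need cho : ℕ}
    (hs : ∀ s ∈ ss, okS (s.1, p, s.2.1, s.2.2))
    (h : Inv N ((ss.map fun s => (s.1, p, s.2.1, s.2.2)) ++ td) need cho)
    (h0 : cN N ((ss.map fun s => (s.1, p, s.2.1, s.2.2)) ++ td) p = 0) :
    Inv N td need cho := by
  induction ss with
  | nil => exact h
  | cons s ss ih =>
    rw [List.map_cons, List.cons_append] at h h0
    have hb : ¬ N.testBit s.1 = true := by
      intro hb
      have h1 := cN_has_pos (N := N) (p := p) (List.mem_cons_self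
        (a := ((s.1, p, s.2.1, s.2.2) : Stp))
        (l := (ss.map fun s => ((s.1, p, s.2.1, s.2.2) : Stp)) ++ td)) hb (Or.inl rfl)
      omega
    refine ih (fun t ht => hs t (List.mem_cons_of_mem _ ht))
      (h.skip (hs s List.mem_cons_self) hb) ?_
    rw [cN_cons] at h0
    omega

theorem step_nil (p : ℕ) (k : ℕ → ℕ → List ℕ → List ℕ) (need cho : ℕ) (acc : List ℕ) :
    step p k [] need cho acc =
      bif Nat.beq (digit need p) 0 then k need cho acc else acc := by
  cases h : Nat.beq (digit need p) 0 <;> simp only [step, h, cond_true, cond_false]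

theorem step_cons (p : ℕ) (k : ℕ → ℕ → List ℕ → List ℕ) (s : ℕ × ℕ × ℕ)
    (ss : List (ℕ × ℕ × ℕ)) (need cho : ℕ) (acc : List ℕ) :
    step p k (s :: ss) need cho acc =
      bif Nat.beq (digit need p) 0 then k need cho acc else
      bif Nat.beq (digit need s.2.1) 0 then step p k ss need cho acc else
      bif Nat.beq (digit need s.2.2) 0 then step p k ss need cho acc else
        step p k ss (need - wt p s.2.1 s.2.2) (cho + 2 ^ s.1) (step p k ss need cho acc) := by
  cases h : Nat.beq (digit need p) 0
  · cases h2 : Nat.beq (digit need s.2.1) 0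
    · cases h3 : Nat.beq (digit need s.2.2) 0
      · simp only [step, h, h2, h3, cond_false]
        rfl
      · simp only [step, h, h2, h3, cond_true, cond_false]
    · simp only [step, h, h2, cond_true, cond_false]
  · simp only [step, h, cond_true]

theorem step_acc {p : ℕ} {k : ℕ → ℕ → List ℕ → List ℕ}
    (hk : ∀ need cho acc, ∀ x ∈ acc, x ∈ k need cho acc) (ss : List (ℕ × ℕ × ℕ)) :
    ∀ need cho acc, ∀ x ∈ acc, x ∈ step p k ss need cho acc := by
  induction ss with
  | nil =>
    intro need cho acc x hx
    rw [step_nil]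
    cases Nat.beq (digit need p) 0
    · exact hx
    · exact hk _ _ _ x hx
  | cons s ss ih =>
    intro need cho acc x hx
    rw [step_cons]
    cases Nat.beq (digit need p) 0
    · cases Nat.beq (digit need s.2.1) 0
      · cases Nat.beq (digit need s.2.2) 0
        · exact ih _ _ _ x (ih _ _ _ x hx)
        · exact ih _ _ _ x hx
      · exact ih _ _ _ x hx
    · exact hk _ _ _ x hx

theorem srch_acc (gs : List (ℕ × List (ℕ × ℕ × ℕ))) :
    ∀ need cho acc, ∀ x ∈ acc, x ∈ srch gs need cho acc := by
  induction gs with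
  | nil =>
    intro need cho acc x hx
    exact List.mem_cons_of_mem _ hx
  | cons g gs ih => exact step_acc ih g.2

theorem step_mem {N p : ℕ} {k : ℕ → ℕ → List ℕ → List ℕ} {td : List Stp}
    (hk : ∀ need cho acc, ∀ x ∈ acc, x ∈ k need cho acc)
    (hN : ∀ need cho acc, Inv N td need cho → N ∈ k need cho acc)
    (hp : p < 45) (htd : ∀ s ∈ td, ¬ has s p) (ss : List (ℕ × ℕ × ℕ))
    (hs : ∀ s ∈ ss, okS (s.1, p, s.2.1, s.2.2)) :
    ∀ need cho acc, Inv N ((ss.map fun s => (s.1, p, s.2.1, s.2.2)) ++ td) need cho →
      N ∈ step p k ss need cho acc := by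
  induction ss with
  | nil =>
    intro need cho acc h
    rw [step_nil]
    have h0 : cN N td p = 0 := by
      clear hN h hk
      induction td with
      | nil => rfl
      | cons s td ih =>
        rw [cN_cons, ih fun t ht => htd t (List.mem_cons_of_mem _ ht),
          if_neg fun h => htd s List.mem_cons_self h.2]
    have h1 : digit need p = 0 := by
      rw [h.digit hp]
      exact h0
    rw [h1]
    exact hN _ _ _ h
  | cons s ss ih =>
    intro need cho acc h
    rw [step_cons]
    have hok := hs s List.mem_cons_self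
    have ih' := ih fun t ht => hs t (List.mem_cons_of_mem _ ht)
    cases hd : Nat.beq (digit need p) 0
    · rw [cond_false]
      by_cases hb : N.testBit s.1 = true
      · have hmem : ((s.1, p, s.2.1, s.2.2) : Stp) ∈
            ((s :: ss).map fun s => ((s.1, p, s.2.1, s.2.2) : Stp)) ++ td := by
          rw [List.map_cons, List.cons_append]
          exact List.mem_cons_self
        have hq : Nat.beq (digit need s.2.1) 0 = false := by
          have h5 := h.digit (p := s.2.1) hok.2.1
          have h6 := cN_has_pos (N := N) (p := s.2.1) hmem hb (Or.inr (Or.inl rfl))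
          rw [Bool.eq_false_iff]
          intro h7
          have h8 := Nat.eq_of_beq_eq_true h7
          rw [h5] at h8
          rw [h8] at h6
          exact absurd h6 (by norm_num)
        have hr : Nat.beq (digit need s.2.2) 0 = false := by
          have h5 := h.digit (p := s.2.2) hok.2.2.1
          have h6 := cN_has_pos (N := N) (p := s.2.2) hmem hb (Or.inr (Or.inr rfl))
          rw [Bool.eq_false_iff]
          intro h7
          have h8 := Nat.eq_of_beq_eq_true h7
          rw [h5] at h8
          rw [h8] at h6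
          exact absurd h6 (by norm_num)
        rw [hq, hr, cond_false, cond_false]
        refine ih' _ _ _ ?_
        rw [List.map_cons, List.cons_append] at h
        exact h.take hok hb
      · rw [List.map_cons, List.cons_append] at h
        have h1 := ih' need cho acc (h.skip hok hb)
        cases Nat.beq (digit need s.2.1) 0
        · cases Nat.beq (digit need s.2.2) 0
          · exact step_acc hk ss _ _ _ _ h1
          · exact h1
        · exact h1
    · rw [cond_true]
      refine hN _ _ _ ?_
      rw [Nat.beq_eq] at hd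
      rw [h.digit hp] at hd
      exact h.skips hs hd

/-- the steps of a list of groups -/
def flat (gs : List (ℕ × List (ℕ × ℕ × ℕ))) : List Stp :=
  gs.flatMap fun g => g.2.map fun s => (s.1, g.1, s.2.1, s.2.2)

/-- well formed list of groups -/
def wf : List (ℕ × List (ℕ × ℕ × ℕ)) → Prop
  | [] => True
  | g :: gs => g.1 < 45 ∧ (∀ s ∈ g.2, okS (s.1, g.1, s.2.1, s.2.2)) ∧
      (∀ s ∈ flat gs, ¬ has s g.1) ∧ wf gs

instance decWf : (gs : List (ℕ × List (ℕ × ℕ × ℕ))) → Decidable (wf gs)
  | [] => isTrue trivial
  | g :: gs => by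
    unfold wf
    haveI := decWf gs
    infer_instance

theorem srch_mem {N : ℕ} (gs : List (ℕ × List (ℕ × ℕ × ℕ))) (h : wf gs) :
    ∀ need cho acc, Inv N (flat gs) need cho → N ∈ srch gs need cho acc := by
  induction gs with
  | nil =>
    intro need cho acc h1
    have h2 : N = cho + 0 := h1.2.1
    have h3 : srch [] need cho acc = cho :: acc := rfl
    rw [h3, h2, Nat.add_zero]
    exact List.mem_cons_self
  | cons g gs ih =>
    intro need cho acc h1
    obtain ⟨hp, hs, hf, hw⟩ := h
    exact step_mem (srch_acc gs) (ih hw) hp hf g.2 hs need cho acc h1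

end Pool.Agent.Helper58.TB
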