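import Mathlib
import Pool.Agent.Helper58.TB.Sound
import Pool.Agent.Helper58.TB.Groups
import Pool.Agent.Helper58.TB.Data
import Pool.Agent.Helper79.CV.Near
import Pool.Agent.Helper33.CV.Perm
import Pool.Agent.Helper82.TY.PopEnc

/-!
MP_8ee768_co, project TH-Y', TB0: a near-STS(11) on `{0, .., 10}` with the standard perfect
matching as link of 10 and the pair `{0, 1}` covered three times is found by the search.
-/

set_option autoImplicit false

namespace Pool.Agent.Helper58.TB

open Finset
open Pool.Agent.Helper89.CV (OddCover ofMask)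
open Pool.Agent.Helper97.CV
open Pool.Agent.Helper79.CV
open Pool.Agent.Helper82.TY (below supM popc pop)

theorem sum_testBit (N n : ℕ) :
    ∑ i ∈ range n, (if N.testBit i = true then 2 ^ i else 0) = N % 2 ^ n := by
  induction n with
  | zero => simp [Nat.mod_one]
  | succ n ih =>
    rw [sum_range_succ, ih, Nat.mod_pow_succ]
    congr 1
    rw [Nat.testBit_eq_decide_div_mod_eq]
    simp only [decide_eq_true_eq]
    rcases Nat.mod_two_eq_zero_or_one (N / 2 ^ n) with h | h <;> rw [h] <;> simp

theorem sum_list_range {td : List Stp} (hp : (td.map Prod.fst).Perm (List.range 120))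
    (f : ℕ → ℕ) : (td.map fun s => f s.1).sum = ∑ i ∈ range 120, f i := by
  have h1 : (td.map fun s => f s.1) = (td.map Prod.fst).map f := by
    rw [List.map_map]
    rfl
  rw [h1, (hp.map f).sum_eq]
  rfl

/-- the search covers every triple once -/
theorem flat_perm : ((flat groups).map Prod.fst).Perm (List.range 120) := by
  have h : List.isPerm ((flat groups).map Prod.fst) (List.range 120) = true := by decide +kernel
  exact List.isPerm_iff.1 h

theorem wf_groups : wf groups := by decide +kernel

/-- the mask of the triples above the `p`-th pair -/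
def S (p : ℕ) : ℕ := supM 10 3 ((L 10 2).getD p 0)

/-- the steps know the pairs of their triples -/
theorem flat_has : ∀ s ∈ flat groups, ∀ p < 45, ((S p).testBit s.1 = true ↔ has s p) := by
  decide +kernel

theorem cN_eq {N : ℕ} {p : ℕ} (hp : p < 45) :
    cN N (flat groups) p =
      ∑ i ∈ range 120, if N.testBit i = true ∧ (S p).testBit i = true then 1 else 0 := by
  rw [← sum_list_range flat_perm
    (fun i => if N.testBit i = true ∧ (S p).testBit i = true then 1 else 0)]
  unfold cN
  congr 1
  refine List.map_congr_left fun s hs => ?_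
  exact if_congr (and_congr_right fun _ => (flat_has s hs p hp).symm) rfl rfl

theorem codeN_eq {N : ℕ} (hN : N < 2 ^ 120) : codeN N (flat groups) = N := by
  have h := sum_list_range flat_perm (fun i => if N.testBit i = true then 2 ^ i else 0)
  unfold codeN
  rw [h, sum_testBit, Nat.mod_eq_of_lt hN]

theorem popc_land_eq {N M : ℕ} (hN : N < 2 ^ 120) :
    popc (N &&& M) =
      ∑ i ∈ range 120, if N.testBit i = true ∧ M.testBit i = true then 1 else 0 := by
  unfold popc
  rw [card_filter]
  have h2 : range 120 ⊆ range 2048 := range_subset_range.2 (by norm_num)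
  rw [← sum_subset h2]
  · refine sum_congr rfl fun i _ => ?_
    refine if_congr ?_ rfl rfl
    rw [Nat.testBit_and, Bool.and_eq_true]
  · intro i _ hi
    rw [mem_range, not_lt] at hi
    rw [Nat.testBit_and, Nat.testBit_eq_false_of_lt
      (lt_of_lt_of_le hN (Nat.pow_le_pow_right (by norm_num) hi))]
    simp

/-- the members avoiding the point 10 -/
theorem mem_fam_enc {T : Finset (Finset (Fin 13))} {s : Finset (Fin 13)} :
    s ∈ fam 10 3 (enc 10 3 T) ↔ Sub 10 3 s ∧ s ∈ T := by
  rw [mem_fam_iff (by norm_num)]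
  refine and_congr_right fun h => ?_
  rw [testBit_enc_rk (by norm_num) T h, decide_eq_true_eq]

theorem sub_pair_ten {s t : Finset (Fin 13)} (ht : Sub 10 2 t) (hs : Sub 11 3 s) (hts : t ⊆ s)
    (h10 : (10 : Fin 13) ∈ s) : s = insert 10 t := by
  have h1 : (10 : Fin 13) ∉ t := fun h => by
    have := mk_lt_iff.1 ht.1 _ h
    exact absurd this (by decide)
  refine (eq_of_subset_of_card_le (insert_subset h10 hts) ?_).symm
  rw [hs.2, card_insert_of_notMem h1, ht.2]

/-- members over a pair: with and without the point 10 -/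
theorem cnt_split {T : Finset (Finset (Fin 13))} (hT : ∀ s ∈ T, Sub 11 3 s)
    {t : Finset (Fin 13)} (ht : Sub 10 2 t) :
    cnt T t = cnt (fam 10 3 (enc 10 3 T)) t + if t ∈ link T 10 then 1 else 0 := by
  have h10 : (10 : Fin 13) ∉ t := fun h => by
    have := mk_lt_iff.1 ht.1 _ h
    exact absurd this (by decide)
  unfold cnt
  have hsp := card_filter_add_card_filter_not (s := T.filter fun b => t ⊆ b)
    (fun b => (10 : Fin 13) ∉ b)
  have e1 : ((T.filter fun b => t ⊆ b).filter fun b => (10 : Fin 13) ∉ b) =
      (fam 10 3 (enc 10 3 T)).filter fun b => t ⊆ b := by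
    ext s
    simp only [mem_filter, mem_fam_enc]
    constructor
    · rintro ⟨⟨h1, h2⟩, h3⟩
      refine ⟨⟨?_, h1⟩, h2⟩
      refine ⟨?_, (hT s h1).2⟩
      rw [mk_lt_iff]
      intro a ha
      have h4 := mk_lt_iff.1 (hT s h1).1 a ha
      have h5 : a.val ≠ 10 := fun h6 => h3 ((Fin.ext h6 : a = 10) ▸ ha)
      omega
    · rintro ⟨⟨h1, h2⟩, h3⟩
      refine ⟨⟨h2, h3⟩, fun h => ?_⟩
      have := mk_lt_iff.1 h1.1 _ h
      exact absurd this (by decide)
  have e2 : ((T.filter fun b => t ⊆ b).filter fun b => ¬ (10 : Fin 13) ∉ b).card =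
      if t ∈ link T 10 then 1 else 0 := by
    by_cases h : t ∈ link T 10
    · rw [if_pos h, card_eq_one]
      refine ⟨insert 10 t, ?_⟩
      ext s
      simp only [mem_filter, mem_singleton, not_not]
      rw [mem_link] at h
      constructor
      · rintro ⟨⟨h1, h2⟩, h3⟩
        exact sub_pair_ten ht (hT s h1) h2 h3
      · rintro rfl
        exact ⟨⟨h.2, subset_insert _ _⟩, mem_insert_self _ _⟩
    · rw [if_neg h, card_eq_zero, filter_eq_empty_iff]
      intro s hs
      rw [mem_filter] at hs
      rw [not_not]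
      intro h3
      refine h ?_
      rw [mem_link]
      exact ⟨h10, by rw [← sub_pair_ten ht (hT s hs.1) hs.2 h3]; exact hs.1⟩
  rw [← hsp, e1, e2]

/-- the pairs of the standard matching -/
theorem mem_stdPM {m : ℕ} (hm : m < 2 ^ 13) :
    ofMask m ∈ stdPM 5 ↔ m ∈ [3, 12, 48, 192, 768] := by
  have h : stdPM 5 = {ofMask 768, ofMask 192, ofMask 48, ofMask 12, ofMask 3} := by
    unfold stdPM stdPM stdPM stdPM stdPM stdPM
    norm_num
  have hinj : ∀ n < 2 ^ 13, (ofMask m = ofMask n ↔ m = n) := fun n hn =>
    ⟨fun h => ofMask_injOn hm hn h, fun h => by rw [h]⟩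
  rw [h]
  simp only [mem_insert, mem_singleton, List.mem_cons, List.not_mem_nil, or_false]
  rw [hinj _ (by norm_num), hinj _ (by norm_num), hinj _ (by norm_num), hinj _ (by norm_num),
    hinj _ (by norm_num)]
  tauto

/-- how often the `p`-th pair is covered by the triples avoiding 10 -/
def g (p : ℕ) : ℕ :=
  (if (L 10 2).getD p 0 = 3 then 3 else 1) -
    if (L 10 2).getD p 0 ∈ [3, 12, 48, 192, 768] then 1 else 0

theorem sum_g : ∑ p ∈ range 45, g p * 4 ^ p = need01 := by decide +kernel

theorem g_le (p : ℕ) : g p ≤ 3 := by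
  unfold g
  split_ifs <;> omega

theorem srch_sound {T : Finset (Finset (Fin 13))} (hT : ∀ s ∈ T, Sub 11 3 s)
    (h10 : link T 10 = stdPM 5) (h01 : cnt T (ofMask 3) = 3)
    (hoth : ∀ m ∈ L 10 2, m ≠ 3 → cnt T (ofMask m) = 1) :
    enc 10 3 T ∈ srch groups need01 0 [] := by
  set N := enc 10 3 T with hN
  have hlt : N < 2 ^ 120 := enc_lt 10 3 T
  have hc : ∀ p < 45, cN N (flat groups) p = g p := by
    intro p hp
    have hp' : p < (L 10 2).length := by rw [length_L]; exact hp
    have hget : (L 10 2).getD p 0 = (L 10 2)[p] := by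
      rw [List.getD_eq_getElem?_getD, List.getElem?_eq_getElem hp']
      rfl
    have hmem : (L 10 2)[p] ∈ L 10 2 := List.getElem_mem hp'
    have hm := (mem_L (by norm_num : 10 ≤ 13)).1 hmem
    have hm13 : (L 10 2)[p] < 2 ^ 13 := lt_of_lt_of_le hm.1 (by norm_num)
    have hsub : Sub 10 2 (ofMask (L 10 2)[p]) := ofMask_getElem_sub (by norm_num) hp'
    rw [cN_eq hp, ← popc_land_eq hlt]
    have h1 := Pool.Agent.Helper82.TY.cnt_eq_pop (n := 10) (k := 3) (by norm_num) hm13
      (D := fam 10 3 N) (fun s hs => sub_of_mem_fam (by norm_num) hs)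
    rw [enc_fam (by norm_num) hlt] at h1
    have h2 : pop (Nat.land N (supM 10 3 (L 10 2)[p])) = popc (N &&& S p) := by
      unfold S
      rw [hget]
      refine Pool.Agent.Helper82.TY.pop_eq ?_
      exact lt_of_le_of_lt Nat.and_le_left
        (lt_trans hlt (Nat.pow_lt_pow_right (by norm_num) (by norm_num)))
    rw [h2] at h1
    rw [← h1]
    have h3 := cnt_split hT hsub
    rw [← hN] at h3
    have h4 : cnt T (ofMask (L 10 2)[p]) = if (L 10 2)[p] = 3 then 3 else 1 := by
      by_cases h : (L 10 2)[p] = 3
      · rw [if_pos h, h]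
        exact h01
      · rw [if_neg h]
        exact hoth _ hmem h
    rw [h4, h10] at h3
    unfold g
    rw [hget]
    have h5 : (if ofMask (L 10 2)[p] ∈ stdPM 5 then 1 else 0) =
        if (L 10 2)[p] ∈ [3, 12, 48, 192, 768] then 1 else 0 :=
      if_congr (mem_stdPM hm13) rfl rfl
    rw [h5] at h3
    omega
  have hinv : Inv N (flat groups) need01 0 := by
    refine ⟨?_, ?_, fun p => ?_⟩
    · rw [← sum_g]
      unfold wN
      exact sum_congr rfl fun p hp => by rw [hc p (mem_range.1 hp)]
    · rw [codeN_eq hlt, Nat.zero_add]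
    · by_cases hp : p < 45
      · rw [hc p hp]
        exact g_le p
      · have h0 : cN N (flat groups) p = 0 := by
          unfold cN
          refine List.sum_eq_zero fun x hx => ?_
          rw [List.mem_map] at hx
          obtain ⟨s, hs, rfl⟩ := hx
          rw [if_neg]
          rintro ⟨-, h⟩
          have h1 : ∀ s ∈ flat groups, s.2.1 < 45 ∧ s.2.2.1 < 45 ∧ s.2.2.2 < 45 := by
            decide +kernel
          obtain ⟨h2, h3, h4⟩ := h1 s hs
          unfold has at h
          omega
        omega
  exact srch_mem groups wf_groups need01 0 [] hinv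

end Pool.Agent.Helper58.TB
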