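import Mathlib
import Pool.Agent.Helper58.TB.Nf

/-!
MP_8ee768_co, project TH-Y', TB0: every near-STS(11) is one of two, up to a permutation.
-/

set_option autoImplicit false

namespace Pool.Agent.Helper58.TB

open Finset
open Pool.Agent.Helper89.CV (OddCover ofMask)
open Pool.Agent.Helper97.CV
open Pool.Agent.Helper79.CV
open Pool.Agent.Helper33.CV (okPerm permOf valL valL_permOf permOf_apply keeps_permOf relab Keeps)
open Pool.Agent.Helper82.TY (below sub_iff_below)

/-- the certificate test -/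
def okCert (c : ℕ × List ℕ) : Bool :=
  okPerm c.2 && (c.2.take 11).all (fun a => Nat.blt a 11) &&
    Nat.beq (c.2.getD 11 0) 11 && Nat.beq (c.2.getD 12 0) 12 &&
      (Nat.beq (relab 11 3 c.2 (c.1 + 2 ^ 120 * codeF)) repA ||
        Nat.beq (relab 11 3 c.2 (c.1 + 2 ^ 120 * codeF)) repB)

theorem srch_eq : srch groups need01 0 [] = certs.map Prod.fst := by decide +kernel

theorem certs_ok : certs.all okCert = true := by decide +kernel

theorem enc_stdPM : enc 10 2 (stdPM 5) = codeF := by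
  refine Nat.eq_of_testBit_eq fun i => ?_
  by_cases hi : i < 45
  · have hi' : i < (L 10 2).length := by rw [length_L]; exact hi
    rw [testBit_enc _ hi']
    have hmem : (L 10 2)[i] ∈ L 10 2 := List.getElem_mem hi'
    have hm13 : (L 10 2)[i] < 2 ^ 13 :=
      lt_of_lt_of_le ((mem_L (by norm_num : 10 ≤ 13)).1 hmem).1 (by norm_num)
    have h1 : ∀ i < 45, codeF.testBit i = decide ((L 10 2).getD i 0 ∈ [3, 12, 48, 192, 768]) := by
      decide +kernel
    have hget : (L 10 2).getD i 0 = (L 10 2)[i] := by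
      rw [List.getD_eq_getElem?_getD, List.getElem?_eq_getElem hi']
      rfl
    rw [h1 i hi, hget, decide_eq_decide]
    exact mem_stdPM hm13
  · rw [testBit_enc_ge _ (by rw [length_L]; exact not_lt.1 hi)]
    symm
    have h2 : codeF < 2 ^ 45 := by decide
    exact Nat.testBit_eq_false_of_lt
      (lt_of_lt_of_le h2 (Nat.pow_le_pow_right (by norm_num) (not_lt.1 hi)))

/-- the end of the classification: the frame form -/
theorem near_frame {T : Finset (Finset (Fin 13))} (hT : ∀ s ∈ T, Sub 11 3 s)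
    (h10 : link T 10 = stdPM 5) (h01 : cnt T (ofMask 3) = 3)
    (hoth : ∀ m ∈ L 10 2, m ≠ 3 → cnt T (ofMask m) = 1) :
    ∃ σ : Equiv.Perm (Fin 13), σ 12 = 12 ∧ σ 11 = 11 ∧ Keeps 11 σ ∧
      (enc 11 3 (mapF σ T) = repA ∨ enc 11 3 (mapF σ T) = repB) := by
  have h1 := srch_sound hT h10 h01 hoth
  rw [srch_eq, List.mem_map] at h1
  obtain ⟨c, hc, hcN⟩ := h1
  have h2 := List.all_eq_true.1 certs_ok c hc
  unfold okCert at h2
  simp only [Bool.and_eq_true] at h2
  obtain ⟨⟨⟨⟨hp, hk⟩, h11⟩, h12⟩, hAB⟩ := h2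
  have hg11 := permOf_apply hp 11
  have hg12 := permOf_apply hp 12
  have hkeep := keeps_permOf hp hk
  refine ⟨permOf c.2 hp, ?_, ?_, hkeep, ?_⟩
  · rw [Nat.beq_eq] at h12
    rw [List.getD_eq_getElem?_getD] at h12
    have h3 : c.2[12]? = some (permOf c.2 hp 12).val := hg12
    rw [h3] at h12
    exact Fin.ext h12
  · rw [Nat.beq_eq] at h11
    rw [List.getD_eq_getElem?_getD] at h11
    have h3 : c.2[11]? = some (permOf c.2 hp 11).val := hg11
    rw [h3] at h11
    exact Fin.ext h11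
  · have h4 : enc 11 3 (mapF (permOf c.2 hp) T) = relab 11 3 c.2 (c.1 + 2 ^ 120 * codeF) := by
      have h5 := enc_split 10 2 T
      rw [h10] at h5
      have h6 : enc 11 3 T = enc 10 3 T + 2 ^ 120 * enc 10 2 (stdPM 5) := h5
      have h7 : enc 11 3 T = c.1 + 2 ^ 120 * codeF := by rw [h6, enc_stdPM, hcN]
      rw [Pool.Agent.Helper33.CV.enc_mapF_relab (by norm_num) hkeep hT, valL_permOf, h7]
    rw [h4, ← Nat.beq_eq, ← Nat.beq_eq]
    rwa [Bool.or_eq_true] at hAB

/-- five permutations moving a pair of the standard matching to the first one -/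
def movs : List (ℕ × List ℕ) := [
  (3, [0, 1, 2, 3, 4, 5, 6, 7, 8, 9, 10, 11, 12]),
  (12, [2, 3, 0, 1, 4, 5, 6, 7, 8, 9, 10, 11, 12]),
  (48, [4, 5, 2, 3, 0, 1, 6, 7, 8, 9, 10, 11, 12]),
  (192, [6, 7, 2, 3, 4, 5, 0, 1, 8, 9, 10, 11, 12]),
  (768, [8, 9, 2, 3, 4, 5, 6, 7, 0, 1, 10, 11, 12])]

theorem stdPM_famL : stdPM 5 = Pool.Agent.Helper33.CV.famL [3, 12, 48, 192, 768] := by
  ext s
  rw [Pool.Agent.Helper33.CV.mem_famL]
  have h := mem_stdPM (mk_lt s)
  rw [ofMask_mk] at h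
  rw [h]
  constructor
  · intro h1
    exact ⟨mk s, h1, ofMask_mk s⟩
  · rintro ⟨m, hm, rfl⟩
    have : m < 2 ^ 13 := by
      have : ∀ m ∈ [3, 12, 48, 192, 768], m < 2 ^ 13 := by decide
      exact this m hm
    rw [mk_ofMask this]
    exact hm

theorem exists_mov {m : ℕ} (hm : m ∈ [3, 12, 48, 192, 768]) :
    ∃ σ : Equiv.Perm (Fin 13), σ 12 = 12 ∧ σ 11 = 11 ∧ σ 10 = 10 ∧ Keeps 11 σ ∧
      mapF σ (stdPM 5) = stdPM 5 ∧ mapS σ (ofMask m) = ofMask 3 := by
  have hall : ∀ m ∈ [3, 12, 48, 192, 768], ∃ c ∈ movs, c.1 = m := by decide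
  obtain ⟨c, hc, rfl⟩ := hall m hm
  have hok : ∀ c ∈ movs, okPerm c.2 = true ∧ (c.2.take 11).all (fun a => Nat.blt a 11) = true ∧
      c.2[12]? = some 12 ∧ c.2[11]? = some 11 ∧ c.2[10]? = some 10 ∧
      Pool.Agent.Helper33.CV.pmM c.2 c.1 = 3 ∧
      (∀ x ∈ [3, 12, 48, 192, 768], Pool.Agent.Helper33.CV.pmM c.2 x ∈ [3, 12, 48, 192, 768]) ∧
      (∀ x ∈ [3, 12, 48, 192, 768], ∃ y ∈ [3, 12, 48, 192, 768],
        Pool.Agent.Helper33.CV.pmM c.2 y = x) := by decide +kernel
  obtain ⟨hp, hk, h12, h11, h10, h3, himg, hpre⟩ := hok c hc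
  have g12 : c.2[12]? = some (permOf c.2 hp 12).val := permOf_apply hp 12
  have g11 : c.2[11]? = some (permOf c.2 hp 11).val := permOf_apply hp 11
  have g10 : c.2[10]? = some (permOf c.2 hp 10).val := permOf_apply hp 10
  rw [h12, Option.some.injEq] at g12
  rw [h11, Option.some.injEq] at g11
  rw [h10, Option.some.injEq] at g10
  refine ⟨permOf c.2 hp, Fin.ext g12.symm, Fin.ext g11.symm, Fin.ext g10.symm,
    keeps_permOf hp hk, ?_, ?_⟩
  · rw [stdPM_famL, Pool.Agent.Helper33.CV.mapF_famL, valL_permOf]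
    ext s
    rw [Pool.Agent.Helper33.CV.mem_famL, Pool.Agent.Helper33.CV.mem_famL]
    constructor
    · rintro ⟨x, hx, rfl⟩
      rw [List.mem_map] at hx
      obtain ⟨y, hy, rfl⟩ := hx
      exact ⟨_, himg y hy, rfl⟩
    · rintro ⟨x, hx, rfl⟩
      obtain ⟨y, hy, hyx⟩ := hpre x hx
      exact ⟨x, by rw [← hyx]; exact List.mem_map_of_mem hy, rfl⟩
  · have h5 := Pool.Agent.Helper33.CV.ofMask_pmM (permOf c.2 hp) c.1
    rw [valL_permOf, h3] at h5
    exact h5.symm

theorem mapS_below {σ : Equiv.Perm (Fin 13)} {n : ℕ} (h : Keeps n σ) :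
    mapS σ (below n) = below n := by
  ext a
  rw [mem_mapS']
  unfold below
  simp only [mem_filter, mem_univ, true_and]
  constructor
  · intro h1
    have h2 := h _ h1
    rwa [Equiv.apply_symm_apply] at h2
  · intro h1
    exact h.symm a h1

/-- **every near-STS(11) is one of two**: `T` an odd family of triples with 19 members on the
points different from `x` and `y` -/
theorem near_sts {x y : Fin 13} (hxy : x ≠ y) {T : Finset (Finset (Fin 13))}
    (hT : OddFam 2 ((univ.erase x).erase y) T) (hc : T.card = 19) :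
    ∃ σ : Equiv.Perm (Fin 13), σ x = 12 ∧ σ y = 11 ∧
      (enc 11 3 (mapF σ T) = repA ∨ enc 11 3 (mapF σ T) = repB) := by
  have hV : ((univ.erase x).erase y : Finset (Fin 13)).card = 11 := by
    rw [card_erase_of_mem (mem_erase.2 ⟨hxy.symm, mem_univ y⟩), card_erase_of_mem (mem_univ x),
      card_univ, Fintype.card_fin]
  obtain ⟨u, hu, v, hv, huv, hu6, hv6, huv3, h5, h1⟩ := exists_excess hT hV hc
  -- a third point of a member through `u`, `v`
  obtain ⟨b, hb⟩ : (T.filter fun b => ({u, v} : Finset (Fin 13)) ⊆ b).Nonempty := by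
    rw [← card_pos]
    unfold cnt at huv3
    omega
  rw [mem_filter] at hb
  obtain ⟨hbT, hbuv⟩ := hb
  obtain ⟨hbV, hb3⟩ := hT.1 b hbT
  obtain ⟨z, hz⟩ : (b \ {u, v}).Nonempty := by
    rw [← card_pos, card_sdiff_of_subset hbuv, hb3, card_pair huv]
    norm_num
  rw [mem_sdiff, mem_insert, mem_singleton, not_or] at hz
  obtain ⟨hzb, hzu, hzv⟩ := hz
  have hzV := hbV hzb
  have hb_eq : b = insert z {u, v} := by
    refine (eq_of_subset_of_card_le (insert_subset hzb hbuv) ?_).symm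
    rw [hb3, card_insert_of_notMem (by rw [mem_insert, mem_singleton]; tauto), card_pair huv]
  have hzx : x ≠ z := fun h => by
    rw [h] at hzV
    exact notMem_erase z univ (mem_erase.1 hzV).2
  have hzy : y ≠ z := fun h => by
    rw [h] at hzV
    exact notMem_erase z _ hzV
  obtain ⟨σ₁, hx1, hy1, hz1⟩ := exists_perm_three hxy hzx hzy
    (show (12 : Fin 13) ≠ 11 by decide) (show (12 : Fin 13) ≠ 10 by decide)
    (show (11 : Fin 13) ≠ 10 by decide)
  set T₁ := mapF σ₁ T with hT1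
  have hV1 : mapS σ₁ ((univ.erase x).erase y) = below 11 := by
    ext a
    rw [mem_mapS']
    unfold below
    simp only [mem_erase, mem_univ, and_true, mem_filter, true_and]
    have h2 : σ₁.symm a = y ↔ a = 11 := by
      rw [Equiv.symm_apply_eq, hy1]
    have h3 : σ₁.symm a = x ↔ a = 12 := by
      rw [Equiv.symm_apply_eq, hx1]
    rw [ne_eq, ne_eq, h2, h3]
    have h4 : ∀ a : Fin 13, (¬ a = 11 ∧ ¬ a = 12) ↔ a.val < 11 := by decide
    exact h4 a
  have hodd1 : OddFam 2 (below 11) T₁ := by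
    rw [← hV1]
    exact hT.map σ₁
  have hPM : IsPM 5 (link T₁ 10) := by
    have h10 : (10 : Fin 13) ∈ below 11 := by decide
    have h2 := hodd1.link h10
    refine isPM_of_oddFam (by norm_num) (V := (below 11).erase 10) ?_ h2 ?_
    · decide
    · rw [card_link, hT1, ← hz1, ← mapS_singleton, cnt_mapF]
      exact h5 z hzV hzu hzv
  obtain ⟨σ₂, hσ2, hstd⟩ := hPM.exists_perm 5 (by norm_num)
  have e12 : σ₂ 12 = 12 := hσ2 12 (by decide)
  have e11 : σ₂ 11 = 11 := hσ2 11 (by decide)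
  have e10 : σ₂ 10 = 10 := hσ2 10 (by decide)
  -- the excess pair is a pair of the standard matching
  have hp : mapS σ₂ (mapS σ₁ {u, v}) ∈ stdPM 5 := by
    rw [← hstd, mem_mapF, mem_link]
    constructor
    · rw [← hz1, mem_mapS, mem_insert, mem_singleton]
      tauto
    · rw [← hz1, ← mapS_insert, hT1, mem_mapF, ← hb_eq]
      exact hbT
  have hm := (mem_stdPM (mk_lt (mapS σ₂ (mapS σ₁ {u, v})))).1 (by rw [ofMask_mk]; exact hp)
  obtain ⟨σ₃, f12, f11, f10, hk3, hstd3, h3⟩ := exists_mov hm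
  rw [ofMask_mk] at h3
  have hk2 : Keeps 11 σ₂ := by
    intro a ha
    by_contra hge
    have h6 : 10 ≤ (σ₂ a).val := by omega
    have h7 := hσ2 (σ₂ a) h6
    have h8 := σ₂.injective h7
    rw [h8] at hge
    exact hge ha
  set T₃ := mapF σ₃ (mapF σ₂ T₁) with hT3
  have hodd3 : OddFam 2 (below 11) T₃ := by
    have h6 := (hodd1.map σ₂).map σ₃
    rwa [mapS_below hk2, mapS_below hk3] at h6
  have hsub3 : ∀ s ∈ T₃, Sub 11 3 s := by
    intro s hs
    exact sub_iff_below.2 (hodd3.1 s hs)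
  have hcomp : ∀ s, cnt T₃ (mapS σ₃ (mapS σ₂ (mapS σ₁ s))) = cnt T s := by
    intro s
    rw [hT3, cnt_mapF, cnt_mapF, hT1, cnt_mapF]
  have hlink3 : link T₃ 10 = stdPM 5 := by
    have h6 : link T₃ 10 = mapF σ₃ (mapF σ₂ (link T₁ 10)) := by
      conv_lhs => rw [hT3, ← f10, link_mapF]
      conv_lhs => rw [← e10, link_mapF]
    rw [h6, hstd, hstd3]
  have h013 : cnt T₃ (ofMask 3) = 3 := by
    rw [← h3, hcomp, huv3]
  have hoth3 : ∀ m ∈ L 10 2, m ≠ 3 → cnt T₃ (ofMask m) = 1 := by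
    intro m hm hm3
    have hmL := (mem_L (by norm_num : 10 ≤ 13)).1 hm
    have hm13 : m < 2 ^ 13 := lt_of_lt_of_le hmL.1 (by norm_num)
    obtain ⟨a, b, hab, hs⟩ := card_eq_two.1 hmL.2
    -- go back to `V`
    set a' := σ₁.symm (σ₂.symm (σ₃.symm a)) with ha'
    set b' := σ₁.symm (σ₂.symm (σ₃.symm b)) with hb'
    have hsa : σ₃ (σ₂ (σ₁ a')) = a := by
      rw [ha', Equiv.apply_symm_apply, Equiv.apply_symm_apply, Equiv.apply_symm_apply]
    have hsb : σ₃ (σ₂ (σ₁ b')) = b := by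
      rw [hb', Equiv.apply_symm_apply, Equiv.apply_symm_apply, Equiv.apply_symm_apply]
    have himg : mapS σ₃ (mapS σ₂ (mapS σ₁ {a', b'})) = ofMask m := by
      rw [mapS_pair, mapS_pair, mapS_pair, hsa, hsb, hs]
    have hmem : ∀ c : Fin 13, c.val < 10 → σ₁.symm (σ₂.symm (σ₃.symm c)) ∈
        (univ.erase x).erase y := by
      intro c hcv
      have h6 : (σ₃.symm c).val < 11 := hk3.symm c (by omega)
      have h7 : (σ₂.symm (σ₃.symm c)).val < 11 := hk2.symm _ h6
      have h8 : σ₂.symm (σ₃.symm c) ∈ below 11 := by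
        unfold below
        exact mem_filter.2 ⟨mem_univ _, h7⟩
      rw [← hV1, mem_mapS'] at h8
      exact h8
    have hval : ∀ c ∈ ofMask m, c.val < 10 := by
      have h6 : mk (ofMask m) < 2 ^ 10 := by
        rw [mk_ofMask hm13]
        exact hmL.1
      exact mk_lt_iff.1 h6
    have haV := hmem a (hval a (by rw [hs]; exact mem_insert_self a _))
    have hbV' := hmem b (hval b (by rw [hs]; exact mem_insert_of_mem (mem_singleton_self b)))
    rw [← himg, hcomp]
    refine h1 a' haV b' hbV' ?_ ?_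
    · intro h6
      refine hab ?_
      rw [← hsa, ← hsb, h6]
    · intro h6
      refine hm3 (ofMask_injOn hm13 (by norm_num) ?_)
      rw [← himg, h6]
      exact h3
  obtain ⟨σ₄, g12, g11, -, hAB⟩ := near_frame hsub3 hlink3 h013 hoth3
  refine ⟨σ₄ * (σ₃ * (σ₂ * σ₁)), ?_, ?_, ?_⟩
  · rw [Equiv.Perm.mul_apply, Equiv.Perm.mul_apply, Equiv.Perm.mul_apply, hx1, e12, f12, g12]
  · rw [Equiv.Perm.mul_apply, Equiv.Perm.mul_apply, Equiv.Perm.mul_apply, hy1, e11, f11, g11]
  · rw [mapF_mul, mapF_mul, mapF_mul]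
    exact hAB

/-- **pair links with `m = 0`** of an odd cover -/
theorem near_cover {B : Finset (Finset (Fin 13))} (hB : OddCover B) {x y : Fin 13}
    (hxy : x ≠ y) (hm : mm B x y = 0) :
    ∃ σ : Equiv.Perm (Fin 13), σ x = 12 ∧ σ y = 11 ∧
      (enc 11 3 (link (link (mapF σ B) 12) 11) = repA ∨
        enc 11 3 (link (link (mapF σ B) 12) 11) = repB) := by
  have hc : (link (link B x) y).card = 19 := by
    rw [card_link_link hB hxy, hm]
  obtain ⟨σ, h1, h2, h3⟩ := near_sts hxy (oddFam_link₂ hB hxy) hc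
  refine ⟨σ, h1, h2, ?_⟩
  have h4 : link (link (mapF σ B) 12) 11 = mapF σ (link (link B x) y) := by
    rw [← h1, link_mapF, ← h2, link_mapF]
  rw [h4]
  exact h3

end Pool.Agent.Helper58.TB
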