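import Pool.Agent.Helper58.TB.Ind2
import Pool.Agent.Helper77.TY.V3F

/-!
MP_8ee768_co, project TH-Y', stage 0: the claims of the parts of a sub-run.

`Cl T Z F cap N K`: above every choice with the word `N` there are at most `K` members of the sub-run
`(Z, F)`. `part_ok`: a part which passes the kernel check proves its claim from the claims it calls.
-/

set_option autoImplicit false

namespace Pool.Agent.Helper58.TI

open Pool.Agent.Helper63.SIMD (pk)
open Pool.Agent.Helper69.TY (CountLe)
open Pool.Agent.Helper57.TZ (NRel St)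
open Pool.Agent.Helper77.TY

/-- the claims of a list of calls -/
def AC (T Z F cap : ℕ) (J : List ((ℕ × ℕ) × ℕ)) : Prop :=
  @List.rec ((ℕ × ℕ) × ℕ) (fun _ => Prop) True (fun j _ ih => Cl T Z F cap j.1.1 j.1.2 ∧ ih) J

section

variable {T Z F cap zm N K p U : ℕ} {J : List ((ℕ × ℕ) × ℕ)} {j : ℕ × ℕ}

theorem ac_nil : AC T Z F cap [] := trivial

theorem ac_cons (h : Cl T Z F cap N K) (h' : AC T Z F cap J) : AC T Z F cap (((N, K), p) :: J) :=
  ⟨h, h'⟩

theorem AC.mem (h : AC T Z F cap J) : ∀ i ∈ J, Cl T Z F cap i.1.1 i.1.2 := by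
  induction J with
  | nil => intro i hi; exact absurd hi List.not_mem_nil
  | cons j J ih =>
    intro i hi
    have h1 : Cl T Z F cap j.1.1 j.1.2 ∧ AC T Z F cap J := h
    rcases List.mem_cons.1 hi with rfl | h2
    · exact h1.1
    · exact ih h1.2 i h2

/-- **a part** -/
theorem part_ok (z : ZOK T Z F cap zm) (h : V3F.part zm J j U = true) (hJ : AC T Z F cap J) :
    Cl T Z F cap j.1 j.2 := by
  rw [V3F.part_eq] at h
  exact part_sound2 z hJ.mem h

/-- a larger bound -/
theorem Cl.mono {K' : ℕ} (h : Cl T Z F cap N K) (hK : K ≤ K') : Cl T Z F cap N K' :=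
  fun inc av hR => Pool.Agent.Helper58.TB.countLe_le hK (h inc av hR)

end

end Pool.Agent.Helper58.TI
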