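import Pool.Agent.Helper58.TB.Part
import Pool.Agent.Helper33.TY.RootB

/-!
MP_8ee768_co, project TH-Y', stage 0: the conditions on a sub-run from the check of its root.
-/

set_option autoImplicit false

namespace Pool.Agent.Helper58.TI

open Pool.Agent.Helper69.TY (pcb)
open Pool.Agent.Helper33.TY.Root (rootB rootB_zm zS zS_spec)

/-- **the conditions on a sub-run** -/
theorem zok {T Z F cap zm N : ℕ} (h : rootB T Z F cap zm N = true) (hT : pcb T 165 = 19)
    (hcap : cap ≤ 6) : ZOK T Z F cap zm :=
  ⟨hT, hcap, zS Z, rootB_zm h, zS_spec.1, zS_spec.2⟩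

end Pool.Agent.Helper58.TI
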