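import Pool.Agent.Helper58.TB.Facts
import Pool.Agent.Helper69.TY.ListV

/-!
MP_8ee768_co, project TH-Y': the members of a run on the level of the code `e` of the blocks inside
`{0, .., 10}`.
-/

set_option autoImplicit false

namespace Pool.Agent.Helper58.TB

open Finset
open Pool.Agent.Helper89.CV (OddCover ofMask)
open Pool.Agent.Helper97.CV
open Pool.Agent.Helper79.CV
open Pool.Agent.Helper82.TY (below)
open Pool.Agent.Helper67.TY
open Pool.Agent.Helper69.TY (CountLe Ent abv abv_eq xb parL pcb above mem_above)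

/-- number of the members of the list `l` which are positions of bits of `e` -/
def cb (e : ℕ) : List ℕ → ℕ
  | [] => 0
  | q :: l => (e.testBit q).toNat + cb e l

theorem xb_eq (e : ℕ) (l : List ℕ) : xb e l = decide (cb e l % 2 = 1) := by
  induction l with
  | nil => rfl
  | cons q l ih =>
    show xor (e.testBit q) (xb e l) = decide (((e.testBit q).toNat + cb e l) % 2 = 1)
    rw [ih]
    cases e.testBit q
    · simp
    · rcases Nat.mod_two_eq_zero_or_one (cb e l) with h | h
      · have h2 : (1 + cb e l) % 2 = 1 := by omega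
        simp [h, h2]
      · have h2 : (1 + cb e l) % 2 = 0 := by omega
        simp [h, h2]

theorem cb_above (e m : ℕ) (l : List ℕ) : ∀ i : ℕ, cb e (above m i l) =
    ∑ q ∈ range l.length, if (e.testBit (i + q) = true ∧ m &&& l.getD q 0 = m) then 1 else 0 := by
  induction l with
  | nil => intro i; rfl
  | cons b l ih =>
    intro i
    rw [List.length_cons, sum_range_succ']
    have h1 : ∀ q, (b :: l).getD (q + 1) 0 = l.getD q 0 := fun q => by simp
    have h2 : (b :: l).getD 0 0 = b := by simp
    have h3 : ∑ q ∈ range l.length, (if (e.testBit (i + (q + 1)) = true ∧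
        m &&& (b :: l).getD (q + 1) 0 = m) then 1 else 0) = cb e (above m (i + 1) l) := by
      rw [ih]
      refine sum_congr rfl fun q _ => ?_
      rw [h1, show i + (q + 1) = i + 1 + q by omega]
    rw [h3, h2, Nat.add_zero]
    have h4 : above m i (b :: l) = cond (Nat.beq (Nat.land m b) m) (i :: above m (i + 1) l)
      (above m (i + 1) l) := rfl
    rw [h4]
    by_cases hb : m &&& b = m
    · have e1 : Nat.beq (Nat.land m b) m = true := by
        have h0 : Nat.land m b = m := hb
        rw [h0]
        exact Nat.beq_refl m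
      rw [e1, cond_true]
      show (e.testBit i).toNat + cb e (above m (i + 1) l) = _
      cases h5 : e.testBit i
      · simp
      · simp [hb, Nat.add_comm]
    · have e1 : Nat.beq (Nat.land m b) m = false := by
        rw [← Bool.not_eq_true]
        intro h
        exact hb (Nat.eq_of_beq_eq_true h)
      rw [e1, cond_false]
      simp [hb]

/-- members of a coded family containing the set with the mask `m` -/
theorem cnt_fam {n k e m : ℕ} (hn : n ≤ 13) (hm : m < 2 ^ 13) :
    cnt (fam n k e) (ofMask m) = cb e (above m 0 (L n k)) := by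
  rw [cb_above, ← card_filter]
  unfold cnt
  symm
  refine card_bij (fun q _ => ofMask ((L n k).getD q 0)) ?_ ?_ ?_
  · intro q hq
    rw [mem_filter, mem_range] at hq
    obtain ⟨h1, h2, h3⟩ := hq
    rw [Nat.zero_add] at h2
    rw [List.getD_eq_getElem _ _ h1] at h3 ⊢
    rw [mem_filter, mem_fam]
    refine ⟨⟨q, h1, h2, rfl⟩, ?_⟩
    rw [ofMask_subset hm]
    exact h3
  · intro q hq r hr hqr
    rw [mem_filter, mem_range] at hq hr
    rw [List.getD_eq_getElem _ _ hq.1, List.getD_eq_getElem _ _ hr.1] at hqr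
    rw [← rk_getElem hn hq.1, ← rk_getElem hn hr.1, hqr]
  · intro b hb
    rw [mem_filter, mem_fam] at hb
    obtain ⟨⟨q, h1, h2, rfl⟩, h3⟩ := hb
    rw [ofMask_subset hm] at h3
    refine ⟨q, ?_, by rw [List.getD_eq_getElem _ _ h1]⟩
    rw [mem_filter, mem_range, List.getD_eq_getElem _ _ h1, Nat.zero_add]
    exact ⟨h1, h2, h3⟩

/-- splitting a family of quads on `{0, .., 11}` at the point 11 -/
theorem cntB_split {D : Finset (Finset (Fin 13))} (hD : ∀ b ∈ D, Sub 12 4 b)
    {s : Finset (Fin 13)} (hs : Sub 11 3 s) :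
    cnt D s = cnt (fam 11 4 (enc 11 4 D)) s + (decide (s ∈ link D 11)).toNat := by
  have h11 : (11 : Fin 13) ∉ s := by
    intro h
    exact absurd (mk_lt_iff.1 hs.1 _ h) (by decide)
  have e1 : D.filter (fun b => s ⊆ b) =
      ((fam 11 4 (enc 11 4 D)).filter fun b => s ⊆ b) ∪
        (if s ∈ link D 11 then {insert 11 s} else ∅) := by
    ext b
    rw [mem_filter, mem_union, mem_filter, mem_fam_iff (by norm_num : 11 ≤ 13)]
    constructor
    · rintro ⟨hb, hsb⟩
      by_cases hb11 : (11 : Fin 13) ∈ b
      · right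
        have h1 : insert 11 s ⊆ b := by
          intro x hx
          rcases mem_insert.1 hx with rfl | hx
          · exact hb11
          · exact hsb hx
        have h2 : insert 11 s = b := by
          refine eq_of_subset_of_card_le h1 ?_
          rw [card_insert_of_notMem h11, hs.2, (hD b hb).2]
        have h3 : s ∈ link D 11 := by
          rw [mem_link]
          exact ⟨h11, by rw [h2]; exact hb⟩
        rw [if_pos h3, mem_singleton, h2]
      · left
        have h1 : Sub 11 4 b := by
          refine ⟨mk_lt_iff.2 fun a ha => ?_, (hD b hb).2⟩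
          have h2 := mk_lt_iff.1 (hD b hb).1 a ha
          by_contra h3
          have h4 : a = 11 := by
            apply Fin.ext
            show a.val = 11
            omega
          exact hb11 (h4 ▸ ha)
        refine ⟨⟨h1, ?_⟩, hsb⟩
        rw [testBit_enc_rk (by norm_num : 11 ≤ 13) D h1, decide_eq_true_eq]
        exact hb
    · rintro (⟨⟨h1, h2⟩, h3⟩ | h1)
      · rw [testBit_enc_rk (by norm_num : 11 ≤ 13) D h1, decide_eq_true_eq] at h2
        exact ⟨h2, h3⟩
      · by_cases h2 : s ∈ link D 11
        · rw [if_pos h2, mem_singleton] at h1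
          subst h1
          exact ⟨(mem_link.1 h2).2, subset_insert _ _⟩
        · rw [if_neg h2] at h1
          exact absurd h1 (notMem_empty _)
  unfold cnt
  rw [e1, card_union_of_disjoint]
  · congr 1
    by_cases h2 : s ∈ link D 11
    · rw [if_pos h2, decide_eq_true h2]
      rfl
    · rw [if_neg h2, decide_eq_false h2]
      rfl
  · by_cases h2 : s ∈ link D 11
    · rw [if_pos h2, disjoint_singleton_right, mem_filter, mem_fam_iff (by norm_num : 11 ≤ 13)]
      rintro ⟨⟨h3, -⟩, -⟩
      exact absurd (mk_lt_iff.1 h3.1 _ (mem_insert_self _ _)) (by decide)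
    · rw [if_neg h2]
      exact disjoint_empty_right _

/-- the blocks avoiding 11 -/
theorem fam_enc_filter {D : Finset (Finset (Fin 13))} (hD : ∀ b ∈ D, Sub 12 4 b) :
    fam 11 4 (enc 11 4 D) = D.filter fun b => (11 : Fin 13) ∉ b := by
  ext b
  rw [mem_fam_iff (by norm_num : 11 ≤ 13), mem_filter]
  constructor
  · rintro ⟨h1, h2⟩
    rw [testBit_enc_rk (by norm_num : 11 ≤ 13) D h1, decide_eq_true_eq] at h2
    exact ⟨h2, fun h3 => absurd (mk_lt_iff.1 h1.1 _ h3) (by decide)⟩
  · rintro ⟨hb, hb11⟩
    have h1 : Sub 11 4 b := by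
      refine ⟨mk_lt_iff.2 fun a ha => ?_, (hD b hb).2⟩
      have h2 := mk_lt_iff.1 (hD b hb).1 a ha
      by_contra h3
      have h4 : a = 11 := by
        apply Fin.ext
        show a.val = 11
        omega
      exact hb11 (h4 ▸ ha)
    refine ⟨h1, ?_⟩
    rw [testBit_enc_rk (by norm_num : 11 ≤ 13) D h1, decide_eq_true_eq]
    exact hb

/-- splitting a family of quads on `{0, .., 11}` at the point 11, any set -/
theorem cntB_split' {D : Finset (Finset (Fin 13))} (hD : ∀ b ∈ D, Sub 12 4 b)
    {s : Finset (Fin 13)} (hs : (11 : Fin 13) ∉ s) :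
    cnt D s = cnt (fam 11 4 (enc 11 4 D)) s + cnt (link D 11) s := by
  rw [cnt_link D hs, fam_enc_filter hD]
  unfold cnt
  have h := card_filter_add_card_filter_not (s := D.filter fun b => s ⊆ b)
    (p := fun b => (11 : Fin 13) ∉ b)
  rw [← h, filter_filter, filter_filter, filter_filter]
  congr 2
  · ext b
    simp only [mem_filter]
    tauto
  · ext b
    simp only [mem_filter, insert_subset_iff, not_not]
    tauto

/-! ## codes -/

theorem enc_low {e T : ℕ} (he : e < 2 ^ 330) (hT : T < 2 ^ 165) :
    enc 11 4 (fam 12 4 (e + 2 ^ 330 * T)) = e ∧ link (fam 12 4 (e + 2 ^ 330 * T)) 11 = fam 11 3 T := by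
  obtain ⟨D, hDd⟩ : ∃ D, D = fam 12 4 (e + 2 ^ 330 * T) := ⟨_, rfl⟩
  have hlt : e + 2 ^ 330 * T < 2 ^ (12).choose 4 := by
    have h1 : (12).choose 4 = 330 + 165 := by decide
    rw [h1, pow_add]
    have h2 : e + 2 ^ 330 * T < 2 ^ 330 * (T + 1) := by
      rw [Nat.mul_add, Nat.mul_one]
      omega
    exact lt_of_lt_of_le h2 (Nat.mul_le_mul_left _ hT)
  have h1 : enc 12 4 D = e + 2 ^ 330 * T := by
    rw [hDd]
    exact enc_fam (by norm_num) hlt
  have h2 := enc_mod 11 3 D
  have h3 := enc_shift 11 3 D
  have c1 : (11).choose (3 + 1) = 330 := by decide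
  have c2 : (11 : Fin 13).val.choose (3 + 1) = 330 := by decide
  have c3 : (11 : Fin 13).val = 11 := rfl
  rw [c1] at h2
  rw [c2] at h3
  rw [c3] at h3
  have h4 : enc (11 + 1) (3 + 1) D = e + 2 ^ 330 * T := h1
  rw [h4] at h2 h3
  rw [Nat.add_mul_mod_self_left, Nat.mod_eq_of_lt he] at h2
  rw [Nat.shiftRight_eq_div_pow, Nat.add_mul_div_left _ _ (Nat.two_pow_pos 330),
    Nat.div_eq_of_lt he, Nat.zero_add] at h3
  rw [← hDd]
  refine ⟨h2.symm, ?_⟩
  have h5 : ∀ s ∈ link D 11, Sub 11 3 s := by
    intro s hs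
    rw [mem_link] at hs
    have h6 := sub_of_mem_fam (n := 12) (k := 4) (by norm_num) (hDd ▸ hs.2)
    refine ⟨mk_lt_iff.2 fun a ha => ?_, ?_⟩
    · have h7 := mk_lt_iff.1 h6.1 a (mem_insert_of_mem ha)
      by_contra h8
      have h9 : a = 11 := by
        apply Fin.ext
        show a.val = 11
        omega
      exact hs.1 (h9 ▸ ha)
    · have h7 := h6.2
      rw [card_insert_of_notMem hs.1] at h7
      omega
  rw [h3, fam_enc (by norm_num) h5]

/-- number of blocks above the triple with the position `t`, the one through 11 included -/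
def nT (T e t : ℕ) : ℕ := cb e (abv.getD t []) + (T.testBit t).toNat

theorem abv_getD {t : ℕ} (ht : t < 165) :
    abv.getD t [] = above ((L 11 3).getD t 0) 0 (L 11 4) := by
  have hl : (L 11 3).length = 165 := by rw [length_L]; rfl
  rw [abv_eq, List.getD_eq_getElem _ _ (by rw [List.length_map, hl]; exact ht), List.getElem_map,
    List.getD_eq_getElem _ _ (by rw [hl]; exact ht)]

theorem cnt_eq_nT {e T : ℕ} (he : e < 2 ^ 330) (hT : T < 2 ^ 165) {t : ℕ} (ht : t < 165) :
    cnt (fam 12 4 (e + 2 ^ 330 * T)) (ofMask ((L 11 3).getD t 0)) = nT T e t := by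
  have hl : t < (L 11 3).length := by rw [length_L]; exact ht
  have h1 : Sub 11 3 (ofMask ((L 11 3).getD t 0)) := by
    rw [List.getD_eq_getElem _ _ hl]
    exact ofMask_getElem_sub (by norm_num) hl
  have hm : (L 11 3).getD t 0 < 2 ^ 13 := by
    rw [List.getD_eq_getElem _ _ hl]
    exact lt_of_lt_of_le (lt_of_mem_L (List.getElem_mem hl)) (Nat.pow_le_pow_right (by norm_num) (by norm_num))
  obtain ⟨h2, h3⟩ := enc_low he hT
  have h4 : rk 11 3 (ofMask ((L 11 3).getD t 0)) = t := by
    rw [List.getD_eq_getElem _ _ hl]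
    exact rk_getElem (by norm_num) hl
  have h5 : decide (ofMask ((L 11 3).getD t 0) ∈ fam 11 3 T) = T.testBit t := by
    rw [Bool.eq_iff_iff, decide_eq_true_eq, mem_fam_iff (by norm_num : 11 ≤ 13), h4]
    exact ⟨fun h => h.2, fun h => ⟨h1, h⟩⟩
  rw [cntB_split (fun b hb => sub_of_mem_fam (by norm_num) hb) h1, h2, h3,
    cnt_fam (by norm_num) hm, ← abv_getD ht, h5]
  rfl

/-- the blocks through a point, those through 11 included -/
def pT (T e a : ℕ) : ℕ := cb e (above (2 ^ a) 0 (L 11 4)) + cb T (above (2 ^ a) 0 (L 11 3))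

theorem card_eq_pT {e T : ℕ} (he : e < 2 ^ 330) (hT : T < 2 ^ 165) {a : Fin 13} (ha : a.val < 11) :
    (link (fam 12 4 (e + 2 ^ 330 * T)) a).card = pT T e a := by
  obtain ⟨h2, h3⟩ := enc_low he hT
  unfold pT
  have h11 : (11 : Fin 13) ∉ ({a} : Finset (Fin 13)) := by
    rw [mem_singleton]
    rintro rfl
    exact absurd ha (by decide)
  have h4 : ({a} : Finset (Fin 13)) = ofMask (2 ^ a.val) := by
    ext x
    rw [mem_singleton, mem_ofMask, Nat.testBit_two_pow, decide_eq_true_eq]
    exact ⟨fun h => by rw [h], fun h => Fin.ext h.symm⟩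
  have h5 : (2 : ℕ) ^ a.val < 2 ^ 13 := Nat.pow_lt_pow_right (by norm_num) (by omega)
  rw [card_link, cntB_split' (fun b hb => sub_of_mem_fam (by norm_num) hb) h11, h2, h3, h4,
    cnt_fam (by norm_num) h5, cnt_fam (by norm_num) h5]

/-- excess of the triples of `{0, .., 10}` through the point `a` -/
def hC (T e a : ℕ) : ℕ :=
  ∑ t ∈ (range 165).filter (fun t => ((L 11 3).getD t 0).testBit a = true), nT T e t / 2

/-- excess of the pairs through the point `a` in the family of triples with the code `T` -/
def hP (T a : ℕ) : ℕ :=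
  ∑ b ∈ (range 11).filter (fun b => b ≠ a), cb T (above (2 ^ a + 2 ^ b) 0 (L 11 3)) / 2

theorem ofMask_pair {a b : Fin 13} (hab : a ≠ b) : ofMask (2 ^ a.val + 2 ^ b.val) = {a, b} := by
  revert a b
  decide

theorem hitD_eq {e T : ℕ} (he : e < 2 ^ 330) (hT : T < 2 ^ 165) {a : Fin 13} (ha : a.val < 11) :
    hitD (fam 12 4 (e + 2 ^ 330 * T)) a = hC T e a + hP T a := by
  obtain ⟨h2, h3⟩ := enc_low he hT
  unfold hitD
  obtain ⟨D, hDd⟩ : ∃ D, D = fam 12 4 (e + 2 ^ 330 * T) := ⟨_, rfl⟩
  have hcnt : ∀ t < 165, cnt D (ofMask ((L 11 3).getD t 0)) = nT T e t := by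
    intro t ht
    rw [hDd]
    exact cnt_eq_nT he hT ht
  rw [← hDd] at h2 h3 ⊢
  have ha11 : a ≠ 11 := by
    rintro rfl
    exact absurd ha (by decide)
  have h4 := sum_filter_add_sum_filter_not ((tri 12).filter (fun s => a ∈ s))
    (fun s => (11 : Fin 13) ∉ s) (fun s => cnt D s / 2)
  rw [← h4]
  refine congrArg₂ (· + ·) ?_ ?_
  · unfold hC
    symm
    refine sum_bij (fun t _ => ofMask ((L 11 3).getD t 0)) ?_ ?_ ?_ ?_
    · intro t ht
      rw [mem_filter, mem_range] at ht
      have hl : t < (L 11 3).length := by rw [length_L]; exact ht.1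
      have h5 : Sub 11 3 (ofMask ((L 11 3).getD t 0)) := by
        rw [List.getD_eq_getElem _ _ hl]
        exact ofMask_getElem_sub (by norm_num) hl
      rw [mem_filter, mem_filter, mem_tri, mem_ofMask]
      refine ⟨⟨⟨fun x hx => ?_, h5.2⟩, ht.2⟩, fun h6 => ?_⟩
      · rw [mem_below]
        have := mk_lt_iff.1 h5.1 x hx
        omega
      · exact absurd (mk_lt_iff.1 h5.1 _ h6) (by decide)
    · intro t ht r hr htr
      rw [mem_filter, mem_range] at ht hr
      have hl : t < (L 11 3).length := by rw [length_L]; exact ht.1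
      have hl2 : r < (L 11 3).length := by rw [length_L]; exact hr.1
      rw [List.getD_eq_getElem _ _ hl, List.getD_eq_getElem _ _ hl2] at htr
      rw [← rk_getElem (by norm_num : 11 ≤ 13) hl, ← rk_getElem (by norm_num : 11 ≤ 13) hl2, htr]
    · intro s hs
      rw [mem_filter, mem_filter, mem_tri] at hs
      obtain ⟨⟨⟨h5, h6⟩, h7⟩, h8⟩ := hs
      have h9 : Sub 11 3 s := by
        refine ⟨mk_lt_iff.2 fun x hx => ?_, h6⟩
        have h10 := h5 hx
        rw [mem_below] at h10
        by_contra h11
        have h12 : x = 11 := by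
          apply Fin.ext
          show x.val = 11
          omega
        exact h8 (h12 ▸ hx)
      have hl := rk_lt (by norm_num : 11 ≤ 13) h9
      have h10 : ofMask ((L 11 3).getD (rk 11 3 s) 0) = s := by
        rw [List.getD_eq_getElem _ _ hl]
        exact ofMask_getElem_rk (by norm_num) h9
      refine ⟨rk 11 3 s, ?_, h10⟩
      rw [mem_filter, mem_range]
      refine ⟨by rw [length_L] at hl; exact hl, ?_⟩
      rw [← mem_ofMask, h10]
      exact h7
    · intro t ht
      rw [mem_filter, mem_range] at ht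
      rw [hcnt t ht.1]
  · unfold hP
    symm
    refine sum_bij (fun b _ => ({11, a, ⟨b % 13, Nat.mod_lt _ (by norm_num)⟩} : Finset (Fin 13)))
      ?_ ?_ ?_ ?_
    · intro b hb
      rw [mem_filter, mem_range] at hb
      rw [mem_filter, mem_filter, mem_tri]
      have hb13 : b % 13 = b := Nat.mod_eq_of_lt (by omega)
      refine ⟨⟨⟨fun x hx => ?_, ?_⟩, ?_⟩, ?_⟩
      · rw [mem_below]
        rw [mem_insert, mem_insert, mem_singleton] at hx
        rcases hx with rfl | rfl | rfl
        · decide
        · omega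
        · show b % 13 < 12
          omega
      · rw [card_insert_of_notMem, card_insert_of_notMem, card_singleton]
        · rw [mem_singleton]
          intro h
          have := congrArg Fin.val h
          simp only [hb13] at this
          exact hb.2 this.symm
        · rw [mem_insert, mem_singleton]
          rintro (h | h)
          · exact ha11 h.symm
          · have := congrArg Fin.val h
            simp only [hb13] at this
            have h11 : (11 : Fin 13).val = 11 := rfl
            omega
      · exact mem_insert_of_mem (mem_insert_self _ _)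
      · rw [not_not]
        exact mem_insert_self _ _
    · intro b hb c hc hbc
      rw [mem_filter, mem_range] at hb hc
      have hb13 : b % 13 = b := Nat.mod_eq_of_lt (by omega)
      have hc13 : c % 13 = c := Nat.mod_eq_of_lt (by omega)
      have h5 : (⟨b % 13, Nat.mod_lt _ (by norm_num)⟩ : Fin 13) ∈
          ({11, a, ⟨c % 13, Nat.mod_lt _ (by norm_num)⟩} : Finset (Fin 13)) := by
        rw [← hbc]
        exact mem_insert_of_mem (mem_insert_of_mem (mem_singleton_self _))
      rw [mem_insert, mem_insert, mem_singleton] at h5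
      have h11 : (11 : Fin 13).val = 11 := rfl
      rcases h5 with h5 | h5 | h5
      · have := congrArg Fin.val h5
        simp only [hb13] at this
        omega
      · have := congrArg Fin.val h5
        simp only [hb13] at this
        exact absurd this hb.2
      · have := congrArg Fin.val h5
        simp only [hb13, hc13] at this
        exact this
    · intro s hs
      rw [mem_filter, mem_filter, mem_tri, not_not] at hs
      obtain ⟨⟨⟨h5, h6⟩, h7⟩, h8⟩ := hs
      obtain ⟨b, hb⟩ := card_eq_one.1 (show ((s.erase 11).erase a).card = 1 by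
        rw [card_erase_of_mem (mem_erase.2 ⟨ha11, h7⟩), card_erase_of_mem h8, h6])
      have hbm : b ∈ (s.erase 11).erase a := by rw [hb]; exact mem_singleton_self b
      rw [mem_erase, mem_erase] at hbm
      have hb12 := h5 hbm.2.2
      rw [mem_below] at hb12
      have hb11 : b.val < 11 := by
        by_contra h11
        exact hbm.2.1 (Fin.ext (show b.val = 11 by omega))
      refine ⟨b.val, ?_, ?_⟩
      · rw [mem_filter, mem_range]
        exact ⟨hb11, fun h => hbm.1 (Fin.ext h)⟩
      · have e1 : (⟨b.val % 13, Nat.mod_lt _ (by norm_num)⟩ : Fin 13) = b :=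
          Fin.ext (Nat.mod_eq_of_lt b.isLt)
        rw [e1]
        have e2 : s = insert 11 (insert a ((s.erase 11).erase a)) := by
          rw [insert_erase (mem_erase.2 ⟨ha11, h7⟩), insert_erase h8]
        rw [e2, hb]
    · intro b hb
      rw [mem_filter, mem_range] at hb
      obtain ⟨hb1, hb2⟩ := hb
      obtain ⟨b', rfl⟩ : ∃ b' : Fin 13, b'.val = b := ⟨⟨b, by omega⟩, rfl⟩
      have e1 : (⟨b'.val % 13, Nat.mod_lt _ (by norm_num)⟩ : Fin 13) = b' :=
        Fin.ext (Nat.mod_eq_of_lt b'.isLt)
      rw [e1]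
      have hab : a ≠ b' := fun h => hb2 (by rw [h])
      have h5 : (11 : Fin 13) ∉ ({a, b'} : Finset (Fin 13)) := by
        rw [mem_insert, mem_singleton]
        have h11 : (11 : Fin 13).val = 11 := rfl
        rintro (h | h)
        · exact ha11 h.symm
        · have := congrArg Fin.val h
          omega
      have h6 : 2 ^ a.val + 2 ^ b'.val < 2 ^ 13 := by
        have h7 : 2 ^ a.val < 2 ^ 12 := Nat.pow_lt_pow_right (by norm_num) (by omega)
        have h8 : 2 ^ b'.val < 2 ^ 12 := Nat.pow_lt_pow_right (by norm_num) (by omega)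
        omega
      rw [← cnt_link D h5, h3, ← ofMask_pair hab, cnt_fam (by norm_num) h6]

theorem cb_all (e : ℕ) (l : List ℕ) : ∀ n, cb e (above 0 n l) + pcb e n = pcb e (n + l.length) := by
  induction l with
  | nil => intro n; exact Nat.zero_add _
  | cons b l ih =>
    intro n
    have h4 : above 0 n (b :: l) = cond (Nat.beq (Nat.land 0 b) 0) (n :: above 0 (n + 1) l)
      (above 0 (n + 1) l) := rfl
    have h0 : Nat.land 0 b = 0 := Nat.zero_and b
    have h1 : Nat.beq (Nat.land 0 b) 0 = true := by rw [h0]; rfl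
    rw [h4, h1, cond_true]
    have h2 := ih (n + 1)
    have h3 : pcb e (n + 1) = pcb e n + (e.testBit n).toNat := rfl
    have h5 : cb e (n :: above 0 (n + 1) l) = (e.testBit n).toNat + cb e (above 0 (n + 1) l) := rfl
    rw [h5, List.length_cons, show n + (l.length + 1) = n + 1 + l.length by omega, ← h2, h3]
    omega

theorem card_fam (n k e : ℕ) (hn : n ≤ 13) : (fam n k e).card = pcb e (n.choose k) := by
  have h1 : (fam n k e).card = cnt (fam n k e) (ofMask 0) := by
    unfold cnt
    rw [ofMask_zero, filter_true_of_mem fun b _ => empty_subset b]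
  rw [h1, cnt_fam hn (by norm_num)]
  have h2 := cb_all e (L n k) 0
  rw [length_L, Nat.zero_add] at h2
  exact h2

theorem card_code {e T : ℕ} (he : e < 2 ^ 330) (hT : T < 2 ^ 165) :
    (fam 12 4 (e + 2 ^ 330 * T)).card = pcb e 330 + (fam 11 3 T).card := by
  obtain ⟨h2, h3⟩ := enc_low he hT
  have h4 := cntB_split' (D := fam 12 4 (e + 2 ^ 330 * T)) (s := ∅)
    (fun b hb => sub_of_mem_fam (by norm_num) hb) (notMem_empty _)
  rw [h2, h3] at h4
  have h5 : ∀ F : Finset (Finset (Fin 13)), cnt F ∅ = F.card := by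
    intro F
    unfold cnt
    rw [filter_true_of_mem fun b _ => empty_subset b]
  rw [h5, h5, h5, card_fam 11 4 e (by norm_num)] at h4
  exact h4

/-- the member of a run on the level of the code: `nT` is the number of blocks above a triple, `pT` the
number of blocks through a point, `hC + hP` the excess of the triples through a point -/
structure Good (T m : ℕ) (forb : List ℕ) (cap e : ℕ) : Prop where
  lt : e < 2 ^ 330
  odd : ∀ t < 165, nT T e t % 2 = 1
  num : pcb e 330 ≤ 38 + cap / 2
  ex : ∃ mu : ℕ → ℕ, (∀ a < 11, pT T e a = 19 + 2 * mu a ∧ hC T e a + hP T a = 1 + 3 * mu a) ∧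
    ∑ a ∈ range 11, mu a ≤ cap ∧ (∀ a < 11, m.testBit a = true → mu a = 0) ∧
    ∀ q ∈ forb, q < 2 ^ 11 → ∃ a < 11, q.testBit a = true ∧ mu a ≠ 0

/-- **the bridge** -/
theorem good_of_inRun {T m : ℕ} (hT : T < 2 ^ 165) (hT19 : pcb T 165 = 19) {forb : List ℕ} {cap e : ℕ}
    (he : e < 2 ^ 330) (h : InRun T m forb cap (fam 12 4 (e + 2 ^ 330 * T))) :
    Good T m forb cap e := by
  have hT19' : (fam 11 3 T).card = 19 := by
    rw [card_fam 11 3 T (by norm_num)]
    exact hT19
  obtain ⟨mu, h1, h2, -, h4, h5⟩ := inRun_facts h hT19'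
  refine ⟨he, ?_, ?_, fun a => mu ⟨a % 13, Nat.mod_lt _ (by norm_num)⟩, ?_, ?_, ?_, ?_⟩
  · intro t ht
    have hl : t < (L 11 3).length := by rw [length_L]; exact ht
    have h6 : Sub 11 3 (ofMask ((L 11 3).getD t 0)) := by
      rw [List.getD_eq_getElem _ _ hl]
      exact ofMask_getElem_sub (by norm_num) hl
    have h7 := h.1.2 (ofMask ((L 11 3).getD t 0)) (fun x hx => by
      rw [mem_below]
      have := mk_lt_iff.1 h6.1 x hx
      omega) h6.2
    rw [cnt_eq_nT he hT ht, Nat.odd_iff] at h7
    exact h7
  · have h6 := h.2.2.1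
    rw [card_code he hT, hT19'] at h6
    omega
  · intro a ha
    have h6 := h1 ⟨a % 13, Nat.mod_lt _ (by norm_num)⟩ (by
      show a % 13 < 12
      omega)
    have h7 : ((⟨a % 13, Nat.mod_lt _ (by norm_num)⟩ : Fin 13)).val = a := Nat.mod_eq_of_lt (by omega)
    have h8 := card_eq_pT he hT (a := ⟨a % 13, Nat.mod_lt _ (by norm_num)⟩) (by rw [h7]; exact ha)
    have h9 := hitD_eq he hT (a := ⟨a % 13, Nat.mod_lt _ (by norm_num)⟩) (by rw [h7]; exact ha)
    rw [h7] at h8 h9
    exact ⟨by rw [← h8]; exact h6.1, by rw [← h9]; exact h6.2⟩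
  · refine le_trans (le_of_eq ?_) h2
    refine sum_bij (fun a _ => (⟨a % 13, Nat.mod_lt _ (by norm_num)⟩ : Fin 13)) ?_ ?_ ?_ ?_
    · intro a ha
      rw [mem_range] at ha
      rw [mem_below]
      show a % 13 < 11
      omega
    · intro a ha b hb hab
      rw [mem_range] at ha hb
      have := congrArg Fin.val hab
      simp only at this
      omega
    · intro b hb
      rw [mem_below] at hb
      exact ⟨b.val, mem_range.2 hb, Fin.ext (Nat.mod_eq_of_lt b.isLt)⟩
    · intro a _
      rfl
  · intro a ha hb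
    refine h4 _ ?_ ?_
    · rw [mem_ofMask]
      show m.testBit (a % 13) = true
      rw [Nat.mod_eq_of_lt (by omega)]
      exact hb
    · show a % 13 < 12
      omega
  · intro q hq hq2
    obtain ⟨a, ha, h6⟩ := h5 q hq hq2
    rw [mem_ofMask] at ha
    have ha11 : a.val < 11 := by
      by_contra h10
      rw [Nat.testBit_lt_two_pow (lt_of_lt_of_le hq2
        (Nat.pow_le_pow_right (by norm_num) (by omega)))] at ha
      exact Bool.false_ne_true ha
    refine ⟨a.val, ha11, ha, ?_⟩
    have e1 : (⟨a.val % 13, Nat.mod_lt _ (by norm_num)⟩ : Fin 13) = a :=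
      Fin.ext (Nat.mod_eq_of_lt a.isLt)
    show mu ⟨a.val % 13, Nat.mod_lt _ (by norm_num)⟩ ≠ 0
    rw [e1]
    exact h6

/-- **a run from a count of the good codes** -/
theorem countRun_of_good {T m : ℕ} (hT : T < 2 ^ 165) (hT19 : pcb T 165 = 19) {forb : List ℕ}
    {cap K : ℕ} (h : CountLe (Good T m forb cap) K) : CountRun T m forb cap K := by
  intro F hF
  refine h F fun e he => ?_
  obtain ⟨h1, h2⟩ := hF e he
  have c1 : (11).choose 4 = 330 := by decide
  rw [c1] at h1 h2
  exact good_of_inRun hT hT19 h1 h2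

theorem repA_lt : repA < 2 ^ 165 := by decide +kernel

theorem repB_lt : repB < 2 ^ 165 := by decide +kernel

theorem repA_card : pcb repA 165 = 19 := by decide +kernel

theorem repB_card : pcb repB 165 = 19 := by decide +kernel

/-- the parity conditions as in `Ent` -/
theorem parL_of (T e : ℕ) (h : ∀ t < 165, nT T e t % 2 = 1) : parL T e 0 abv := by
  have h1 : ∀ (l : List (List ℕ)) (i : ℕ), (∀ t, i ≤ t → t < i + l.length →
      xb e (l.getD (t - i) []) = !T.testBit t) → parL T e i l := by
    intro l
    induction l with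
    | nil => intro i _; trivial
    | cons b l ih =>
      intro i h2
      refine ⟨?_, ih (i + 1) fun t h3 h4 => ?_⟩
      · have h3 := h2 i le_rfl (by simp)
        rw [Nat.sub_self] at h3
        simpa using h3
      · have h5 := h2 t (by omega) (by simp only [List.length_cons]; omega)
        rw [show t - i = (t - (i + 1)) + 1 by omega] at h5
        simpa using h5
  refine h1 abv 0 fun t _ h3 => ?_
  have hl : abv.length = 165 := by
    rw [abv_eq, List.length_map, length_L]
    rfl
  rw [Nat.zero_add, hl] at h3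
  have h4 := h t h3
  unfold nT at h4
  rw [Nat.sub_zero, xb_eq]
  cases h5 : T.testBit t
  · rw [h5] at h4
    have h6 : cb e (abv.getD t []) % 2 = 1 := by simpa using h4
    rw [h6]
    rfl
  · rw [h5] at h4
    have h6 : cb e (abv.getD t []) % 2 = 0 := by
      simp only [Bool.toNat_true] at h4
      omega
    rw [h6]
    rfl

/-- a good code is an entry -/
theorem Good.ent {T m : ℕ} {forb : List ℕ} {cap e : ℕ} (h : Good T m forb cap e) :
    Ent T (38 + cap / 2) e := ⟨h.lt, parL_of T e h.odd, h.num⟩

end Pool.Agent.Helper58.TB
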