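import Pool.Agent.Helper58.TB.Leaf

/-!
MP_8ee768_co, project TH-Y': sub-runs (zero points `Z`, flagged points `F` with `m ≥ 1`) and their bounds.

`hv T e v` = excess at the point `v` of the blocks of `e` and the triples of `T`.
-/

set_option autoImplicit false

namespace Pool.Agent.Helper58.TB

open Finset
open Pool.Agent.Helper79.CV (L length_L)
open Pool.Agent.Helper67.TY (CountRun InRun repA repB)
open Pool.Agent.Helper69.TY (CountLe Ent abv abv_eq xb parL pcb above mem_above)

/-- the excess at the point `v` -/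
def hv (T e v : ℕ) : ℕ := hC T e v + hP T v

/-- the members of a sub-run -/
structure SubRun (T Z F cap e : ℕ) : Prop where
  lt : e < 2 ^ 330
  odd : ∀ t < 165, nT T e t % 2 = 1
  mod : ∀ v < 11, hv T e v % 3 = 1
  zero : ∀ v < 11, Z.testBit v = true → hv T e v = 1
  flag : ∀ v < 11, F.testBit v = true → 4 ≤ hv T e v
  sum : ∑ v ∈ range 11, hv T e v / 3 ≤ cap

/-- there are at most `K` members of the sub-run -/
def CountSub (T Z F cap K : ℕ) : Prop := CountLe (SubRun T Z F cap) K

/-! ## parts of a member -/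

section

variable {T Z F cap e E : ℕ}

theorem hv_mono (h : ∀ q, E.testBit q = true → e.testBit q = true) (v : ℕ) :
    hv T E v ≤ hv T e v := by
  unfold hv
  have := hC_mono (T := T) h v
  omega

theorem SubRun.le_one (he : SubRun T Z F cap e)
    (h : ∀ q, E.testBit q = true → e.testBit q = true) {v : ℕ} (hv11 : v < 11)
    (hz : Z.testBit v = true) : hv T E v ≤ 1 := by
  have h1 := hv_mono (T := T) h v
  have h2 := he.zero v hv11 hz
  omega

theorem SubRun.sum_le (he : SubRun T Z F cap e)
    (h : ∀ q, E.testBit q = true → e.testBit q = true) :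
    ∑ v ∈ range 11, max (F.testBit v).toNat ((hv T E v + 1) / 3) ≤ cap := by
  refine le_trans (sum_le_sum fun v hv' => ?_) he.sum
  rw [mem_range] at hv'
  have h1 := hv_mono (T := T) h v
  have h2 := he.mod v hv'
  refine max_le ?_ (by omega)
  cases h3 : F.testBit v
  · exact Nat.zero_le _
  · have h4 := he.flag v hv' h3
    show 1 ≤ _
    omega

/-- adding a block -/
theorem hv_insert {inc inc' q : ℕ} (h1 : ∀ r, r ≠ q → inc'.testBit r = inc.testBit r)
    (h2 : inc'.testBit q = true) (h3 : inc.testBit q = false) (v : ℕ) :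
    hv T inc' v = hv T inc v + ((range 165).filter fun t => ((L 11 3).getD t 0).testBit v = true ∧
      q ∈ abv.getD t [] ∧ nT T inc t % 2 = 1).card := by
  unfold hv
  rw [hC_insert h1 h2 h3]
  omega

end

/-! ## splitting a run into sub-runs -/

/-- zero mask of a function -/
def zmk (mu : ℕ → ℕ) : ℕ := Nat.ofBits fun i : Fin 11 => decide (mu i.val = 0)

theorem zmk_lt (mu : ℕ → ℕ) : zmk mu < 2048 := Nat.ofBits_lt_two_pow _

theorem testBit_zmk (mu : ℕ → ℕ) {a : ℕ} (ha : a < 11) :
    (zmk mu).testBit a = decide (mu a = 0) := by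
  unfold zmk
  rw [Nat.testBit_ofBits_lt _ _ ha]

theorem pcb_zmk (mu : ℕ → ℕ) : ∀ n ≤ 11, n ≤ pcb (zmk mu) n + ∑ a ∈ range n, mu a := by
  intro n
  induction n with
  | zero => intro _; exact Nat.zero_le _
  | succ n ih =>
    intro hn
    have h1 := ih (by omega)
    have h2 : pcb (zmk mu) (n + 1) = pcb (zmk mu) n + ((zmk mu).testBit n).toNat := rfl
    rw [h2, sum_range_succ, testBit_zmk mu (by omega)]
    by_cases h3 : mu n = 0
    · rw [h3]
      simp only [decide_true, Bool.toNat_true]
      omega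
    · rw [decide_eq_false h3]
      simp only [Bool.toNat_false]
      omega

/-- the cover check: every admissible zero mask belongs to a sub-run `(Z, F, K)` -/
def subsOK (m : ℕ) (forb : List ℕ) (cap : ℕ) (subs : List (ℕ × ℕ × ℕ)) : Bool :=
  (List.range 2048).all fun z =>
    !(Nat.beq (Nat.land m z) m && forb.all (fun q => !Nat.beq (Nat.land q z) q) &&
      Nat.ble (11 - cap) (pcb z 11)) ||
    subs.any fun s => Nat.beq (Nat.land s.1 z) s.1 && Nat.beq (Nat.land s.2.1 z) 0

theorem countLe_subs {T cap : ℕ} {P : ℕ → Prop} : ∀ subs : List (ℕ × ℕ × ℕ),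
    (∀ s ∈ subs, CountSub T s.1 s.2.1 cap s.2.2) →
    (∀ e, P e → ∃ s ∈ subs, SubRun T s.1 s.2.1 cap e) →
    CountLe P (subs.map fun s => s.2.2).sum := by
  intro subs
  induction subs generalizing P with
  | nil =>
    intro _ h
    refine countLe_zero fun e he => ?_
    obtain ⟨s, hs, -⟩ := h e he
    exact absurd hs (List.not_mem_nil)
  | cons s l ih =>
    intro h1 h2
    rw [List.map_cons, List.sum_cons]
    refine countLe_split (Q := SubRun T s.1 s.2.1 cap)
      (R := fun e => ∃ r ∈ l, SubRun T r.1 r.2.1 cap e) (fun e he => ?_)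
      (h1 s (List.mem_cons_self ..)) (ih (fun r hr => h1 r (List.mem_cons_of_mem _ hr)) fun e he => he)
    obtain ⟨r, hr, h3⟩ := h2 e he
    rw [List.mem_cons] at hr
    rcases hr with rfl | hr
    · exact Or.inl h3
    · exact Or.inr ⟨r, hr, h3⟩

theorem land_eq_iff {m z : ℕ} (hm : m < 2048) : Nat.land m z = m ↔
    ∀ a < 11, m.testBit a = true → z.testBit a = true := by
  show m &&& z = m ↔ _
  constructor
  · intro h a _ ha
    have h1 := congrArg (fun v => Nat.testBit v a) h
    simp only [Nat.testBit_and, ha, Bool.true_and] at h1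
    exact h1
  · intro h
    refine Nat.eq_of_testBit_eq fun a => ?_
    rw [Nat.testBit_and]
    by_cases ha : a < 11
    · cases h1 : m.testBit a
      · rfl
      · rw [h a ha h1]
        rfl
    · have h2 : m.testBit a = false := Nat.testBit_eq_false_of_lt (lt_of_lt_of_le hm
        (show 2048 ≤ 2 ^ a from le_trans (by norm_num : (2048 : ℕ) ≤ 2 ^ 11)
          (Nat.pow_le_pow_right (by norm_num) (by omega))))
      rw [h2]
      rfl

theorem land_zero_iff {m z : ℕ} (h : Nat.land m z = 0) {a : ℕ} (ha : m.testBit a = true) :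
    z.testBit a = false := by
  have h1 := congrArg (fun v => Nat.testBit v a) (show m &&& z = 0 from h)
  simp only [Nat.testBit_and, ha, Bool.true_and, Nat.zero_testBit] at h1
  exact h1

/-- **a run from its sub-runs** -/
theorem countRun_of_subs {T m : ℕ} (hT : T < 2 ^ 165) (hT19 : pcb T 165 = 19) (hm : m < 2048)
    {forb : List ℕ} {cap K : ℕ} (hf : ∀ q ∈ forb, q < 2048) (subs : List (ℕ × ℕ × ℕ))
    (hs : ∀ s ∈ subs, s.1 < 2048) (hcov : subsOK m forb cap subs = true)
    (h : ∀ s ∈ subs, CountSub T s.1 s.2.1 cap s.2.2)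
    (hK : (subs.map fun s => s.2.2).sum ≤ K) : CountRun T m forb cap K := by
  refine countRun_of_good hT hT19 (countLe_le hK (countLe_subs subs h fun e he => ?_))
  obtain ⟨mu, h1, h2, h3, h4⟩ := he.ex
  unfold subsOK at hcov
  rw [List.all_eq_true] at hcov
  have h5 := hcov (zmk mu) (List.mem_range.2 (zmk_lt mu))
  have c1 : Nat.beq (Nat.land m (zmk mu)) m = true := by
    rw [(land_eq_iff hm).2 fun a ha hb => by
      rw [testBit_zmk mu ha, decide_eq_true_eq]
      exact h3 a ha hb]
    exact Nat.beq_refl m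
  have c2 : forb.all (fun q => !Nat.beq (Nat.land q (zmk mu)) q) = true := by
    rw [List.all_eq_true]
    intro q hq
    rw [Bool.not_eq_true', ← Bool.not_eq_true]
    intro h6
    have h7 := (land_eq_iff (hf q hq)).1 (Nat.eq_of_beq_eq_true h6)
    obtain ⟨a, ha, h8, h9⟩ := h4 q hq (hf q hq)
    have h10 := h7 a ha h8
    rw [testBit_zmk mu ha, decide_eq_true_eq] at h10
    exact h9 h10
  have c3 : Nat.ble (11 - cap) (pcb (zmk mu) 11) = true := by
    rw [Nat.ble_eq]
    have := pcb_zmk mu 11 le_rfl
    omega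
  rw [c1, c2, c3] at h5
  simp only [Bool.and_self, Bool.not_true, Bool.false_or] at h5
  rw [List.any_eq_true] at h5
  obtain ⟨s, hs1, h6⟩ := h5
  rw [Bool.and_eq_true] at h6
  refine ⟨s, hs1, he.lt, he.odd, fun v hv' => ?_, fun v hv' hz => ?_, fun v hv' hz => ?_, ?_⟩
  · have h7 := (h1 v hv').2
    unfold hv
    omega
  · have h7 := (land_eq_iff (hs s hs1)).1 (Nat.eq_of_beq_eq_true h6.1) v hv' hz
    rw [testBit_zmk mu hv', decide_eq_true_eq] at h7
    have h8 := (h1 v hv').2
    unfold hv
    omega
  · have h7 := land_zero_iff (Nat.eq_of_beq_eq_true h6.2) hz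
    rw [testBit_zmk mu hv', decide_eq_false_iff_not] at h7
    have h8 := (h1 v hv').2
    unfold hv
    omega
  · refine le_trans (le_of_eq (sum_congr rfl fun v hv' => ?_)) h2
    rw [mem_range] at hv'
    have h8 := (h1 v hv').2
    unfold hv
    omega

end Pool.Agent.Helper58.TB
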