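import Pool.Agent.Helper67.TY.Sols

/-!
MP_8ee768_co, project TH-Y': counting facts for the odd families on `{0, .., 11}` (the links of the odd
covers), in the form used by a search for the members of a run.

For an odd family `D` of quads on the points `0, .., 11` with at most `57 + cap / 2` blocks the link at
`a` has `19 + 2 m a` blocks, the excesses of the triples through `a` sum to `1 + 3 m a`, and the `m a`
sum to at most `cap`.
-/

set_option autoImplicit false

namespace Pool.Agent.Helper58.TB

open Finset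
open Pool.Agent.Helper89.CV (OddCover ofMask)
open Pool.Agent.Helper97.CV
open Pool.Agent.Helper79.CV
open Pool.Agent.Helper82.TY (below)
open Pool.Agent.Helper67.TY

/-- triples of the points below `n` -/
def tri (n : ℕ) : Finset (Finset (Fin 13)) := powersetCard 3 (below n)

theorem mem_tri {n : ℕ} {s : Finset (Fin 13)} : s ∈ tri n ↔ s ⊆ below n ∧ s.card = 3 := by
  unfold tri
  rw [mem_powersetCard]

/-- sum of the excesses of the triples of `{0, .., 11}` through the point `a` -/
def hitD (D : Finset (Finset (Fin 13))) (a : Fin 13) : ℕ :=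
  ∑ s ∈ (tri 12).filter (fun s => a ∈ s), cnt D s / 2

theorem hitD_link {B : Finset (Finset (Fin 13))} {a : Fin 13} (ha : a ≠ 12) :
    hitD (link B 12) a = Lam B {12, a} := by
  unfold hitD Lam LamW
  refine sum_bij' (fun s _ => insert 12 s) (fun q _ => q.erase 12) ?_ ?_ ?_ ?_ ?_
  · intro s hs
    rw [mem_filter, mem_tri, below_twelve] at hs
    have h12 : (12 : Fin 13) ∉ s := fun h => notMem_erase 12 univ (hs.1.1 h)
    rw [mem_filter, mem_quads, card_insert_of_notMem h12, hs.1.2]
    refine ⟨rfl, ?_⟩
    intro x hx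
    rw [mem_insert, mem_singleton] at hx
    rcases hx with rfl | rfl
    · exact mem_insert_self _ _
    · exact mem_insert_of_mem hs.2
  · intro q hq
    rw [mem_filter, mem_quads] at hq
    have h12 : (12 : Fin 13) ∈ q := hq.2 (mem_insert_self _ _)
    rw [mem_filter, mem_tri, below_twelve]
    refine ⟨⟨fun x hx => ?_, by rw [card_erase_of_mem h12, hq.1]⟩, ?_⟩
    · exact mem_erase.2 ⟨(mem_erase.1 hx).1, mem_univ x⟩
    · exact mem_erase.2 ⟨ha, hq.2 (mem_insert_of_mem (mem_singleton_self a))⟩
  · intro s hs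
    rw [mem_filter, mem_tri, below_twelve] at hs
    have h12 : (12 : Fin 13) ∉ s := fun h => notMem_erase 12 univ (hs.1.1 h)
    exact erase_insert h12
  · intro q hq
    rw [mem_filter, mem_quads] at hq
    exact insert_erase (hq.2 (mem_insert_self _ _))
  · intro s hs
    rw [mem_filter, mem_tri, below_twelve] at hs
    have h12 : (12 : Fin 13) ∉ s := fun h => notMem_erase 12 univ (hs.1.1 h)
    exact (ex_insert B h12).symm

/-- **the counting facts** -/
theorem facts {D : Finset (Finset (Fin 13))} (hD : OddFam 3 (below 12) D) {cap : ℕ}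
    (hc : 2 * D.card ≤ 114 + cap) : ∃ m : Fin 13 → ℕ,
      (∀ a : Fin 13, a.val < 12 → (link D a).card = 19 + 2 * m a ∧ hitD D a = 1 + 3 * m a) ∧
      ∑ a ∈ below 12, m a ≤ cap := by
  have hD' := hD
  rw [below_twelve] at hD'
  obtain ⟨B, hB, rfl⟩ := exists_cover hD'
  refine ⟨fun a => mm B 12 a, fun a ha => ?_, ?_⟩
  · have h1 : a ≠ 12 := by
      rintro rfl
      exact absurd ha (by decide)
    refine ⟨Pool.Agent.Helper67.TY.card_link_link hB h1.symm, ?_⟩
    rw [hitD_link h1, Lam_pair hB h1.symm]
  · have h1 := two_mul_card_link hB 12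
    have h2 : MM B 12 = ∑ a ∈ below 12, mm B 12 a := by
      unfold MM
      refine sum_congr ?_ fun _ _ => rfl
      rw [below_twelve]
      ext x
      simp only [mem_compl, mem_singleton, mem_erase, mem_univ, and_true]
    show ∑ a ∈ below 12, mm B 12 a ≤ cap
    omega

/-- the members of the runs -/
theorem inRun_facts {T m : ℕ} {forb : List ℕ} {cap : ℕ} {D : Finset (Finset (Fin 13))}
    (hD : InRun T m forb cap D) (hT : (fam 11 3 T).card = 19) : ∃ mu : Fin 13 → ℕ,
      (∀ a : Fin 13, a.val < 12 → (link D a).card = 19 + 2 * mu a ∧ hitD D a = 1 + 3 * mu a) ∧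
      ∑ a ∈ below 11, mu a ≤ cap ∧ mu 11 = 0 ∧
      (∀ a ∈ ofMask m, a.val < 12 → mu a = 0) ∧
      (∀ q ∈ forb, q < 2 ^ 11 → ∃ a ∈ ofMask q, mu a ≠ 0) := by
  obtain ⟨h1, h2, h3, h4, h5⟩ := hD
  obtain ⟨mu, h6, h7⟩ := facts h1 h3
  have h11 : mu 11 = 0 := by
    have h8 := (h6 11 (by decide)).1
    rw [h2, hT] at h8
    omega
  refine ⟨mu, h6, ?_, h11, ?_, ?_⟩
  · refine le_trans (sum_le_sum_of_subset (fun x hx => ?_)) h7
    rw [mem_below] at hx ⊢
    omega
  · intro a ha ha2
    have h8 := h4 a ha
    rw [(h6 a ha2).1] at h8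
    omega
  · intro q hq hq2
    by_contra hcon
    push Not at hcon
    refine h5 q hq fun a ha => ?_
    have h8 : a.val < 12 := by
      have h9 : a.val < 11 := by
        by_contra h10
        rw [mem_ofMask, Nat.testBit_lt_two_pow (lt_of_lt_of_le hq2
          (Nat.pow_le_pow_right (by norm_num) (by omega)))] at ha
        exact Bool.false_ne_true ha
      omega
    rw [(h6 a h8).1, hcon a ha]

end Pool.Agent.Helper58.TB
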