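import Pool.Agent.Helper57.TZ.Core
import Pool.Agent.Helper54.TZ.Walk
import Pool.Agent.Helper28.TY.V3T

/-!
MP_8ee768_co, project TH-Y', stage 0: soundness of the search over a stream, from the facts about the
words of the states (`Words`).

`U` = the whole stream, `w a` = weight of its symbol `a`. If the search succeeds from the symbol `a` on and
returns the rest from the symbol `b` on, then the number of members of the sub-run below the state is at
most `w a + .. + w (b - 1)`.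
-/

set_option autoImplicit false

namespace Pool.Agent.Helper58.TI

open Finset
open Pool.Agent.Helper79.CV (L length_L)
open Pool.Agent.Helper69.TY (CountLe abv)
open Pool.Agent.Helper69.TY.V3
open Pool.Agent.Helper58.TB (nT hv SubRun CountSub countLe_mono countLe_le countLe_zero abv_lt abv_nodup)
open Pool.Agent.Helper57.TZ
open Pool.Agent.Helper97.TY (gs)
open Pool.Agent.Helper28.TY.V3T (subs mem_subs)
open Pool.Agent.Helper54.TZ (testBit_gs WJ oth_weight part_spec sum_WJ_le)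

/-! ## unfolding -/

section

variable {zm Zt rest N1 S tm N2 G N3 m n al N : ℕ} {ih kn ot : Fn}

theorem c1_free (h : Nat.land N1 tm = nat_lit 0) : c1 zm ih kn Zt rest N1 S tm =
    kn rest N1 (ih (pr (Nat.add N1 tm) (Nat.land tm Zt)) Zt S) := by
  unfold c1 c2
  rw [h]
  rfl

theorem c1_hit' (h : Nat.beq (Nat.land N1 tm) (nat_lit 0) = false) :
    c1 zm ih kn Zt rest N1 S tm = h1 zm ih kn rest N1 S (Nat.add (Nat.xor N1 tm)
      (Nat.land (Nat.shiftRight (Nat.mul (Nat.land N1 tm) kD) (nat_lit 6144)) c3S)) := by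
  unfold c1 c2
  rw [h]

theorem h1_eq : h1 zm ih kn rest N1 S N2 = h2 zm ih kn rest N1 S N2
    (Nat.land (Nat.shiftRight (Nat.add N2 c2S) (nat_lit 3)) cS) := rfl

theorem h2_eq : h2 zm ih kn rest N1 S N2 G = h3 zm ih kn rest N1 S G
    (Nat.sub (Nat.add N2 (Nat.shiftLeft (Nat.mod G (nat_lit 15)) (nat_lit 8192)))
      (Nat.mul (nat_lit 3) G)) := rfl

theorem h3_dead (h : Nat.beq (Nat.lor (Nat.land G zm) (Nat.land N3 cB)) (nat_lit 0) = false) :
    h3 zm ih kn rest N1 S G N3 = kn rest N1 S := by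
  unfold h3
  rw [h]

theorem h3_alive (h : Nat.lor (Nat.land G zm) (Nat.land N3 cB) = nat_lit 0) :
    h3 zm ih kn rest N1 S G N3 =
      kn rest N1 (ih (pr N3 (Nat.land N3 (zt zm N3))) (zt zm N3) S) := by
  unfold h3
  rw [h]
  rfl

theorem nx_eq {Zt m al N S rest : ℕ} : nx zm ih kn Zt m al N S rest =
    c1 zm ih kn Zt rest (Nat.sub N (Nat.shiftLeft (Nat.sub al rest) m)) S
      (Nat.land (Nat.shiftRight (Nat.mul (Nat.shiftLeft (Nat.sub al rest) m) kT) (nat_lit 4099))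
        cT) := rfl

theorem kids_stop : kids zm ih Zt m (n + 1) 0 N S = S := rfl

theorem kids_next (h : Nat.beq al (nat_lit 0) = false) : kids zm ih Zt m (n + 1) al N S =
    nx zm ih (kids zm ih Zt m n) Zt m al N S (Nat.land al (Nat.sub al (nat_lit 1))) := by
  have e : kids zm ih Zt m (n + 1) al N S = @Bool.rec (fun _ => ℕ)
    (nx zm ih (kids zm ih Zt m n) Zt m al N S (Nat.land al (Nat.sub al (nat_lit 1)))) S
        (Nat.beq al (nat_lit 0)) := rfl
  rw [e, h]

theorem dfs_succ : dfs zm ot (n + 1) N Zt S =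
    nd1 zm ot (dfs zm ot n) N Zt S (Nat.shiftRight S (nat_lit 12)) (Nat.land S (nat_lit 8188)) := rfl

theorem nd1_node {S' : ℕ} (h : Nat.land (Nat.shiftRight N m) (nat_lit 15) = nat_lit 6) :
    nd1 zm ot ih N Zt S S' m =
      kids zm ih Zt m (nat_lit 9) (Nat.land (Nat.shiftRight N m) c8S) N S' := by
  unfold nd1 nd2
  rw [h]

theorem nd1_oth {S' : ℕ} (h : Nat.beq (Nat.land (Nat.shiftRight N m) (nat_lit 15)) (nat_lit 6) = false) :
    nd1 zm ot ih N Zt S S' m = ot N S' (Nat.land S (nat_lit 16380)) := by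
  unfold nd1 nd2
  rw [h]

end

/-- mask of the triple at the position `t` -/
abbrev mt (t : ℕ) : ℕ := (L 11 3).getD t 0

theorem sym_cases (S : ℕ) : ∃ k < 2048, S &&& 8188 = 4 * k := by
  refine ⟨(S >>> 2) &&& 2047, ?_, ?_⟩
  · exact lt_of_le_of_lt Nat.and_le_right (by norm_num)
  · refine Nat.eq_of_testBit_eq fun i => ?_
    have h8 : (8188 : ℕ) = 2047 * 2 ^ 2 := by norm_num
    have h4 : 4 * ((S >>> 2) &&& 2047) = ((S >>> 2) &&& 2047) * 2 ^ 2 := by ring
    rw [h4, h8, Nat.testBit_and, Nat.testBit_mul_two_pow, Nat.testBit_mul_two_pow, Nat.testBit_and,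
      Nat.testBit_shiftRight]
    by_cases h : 2 ≤ i
    · rw [show 2 + (i - 2) = i from by omega]
      simp only [h, decide_true, Bool.true_and]
    · simp only [h, decide_false, Bool.false_and, Bool.and_false]

/-- the bad triples recorded in a word are bad -/
def ZT (T Z F cap inc Zt : ℕ) : Prop :=
  ∀ i, Zt.testBit i = true → ∃ t < 165, i = 4 * mt t ∧ BadC T Z F cap inc (mt t)

/-- the triples of a quad, as a word -/
def tmw (q : ℕ) : ℕ := gs 4 (subs ((L 11 4).getD q 0))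

/-- what is used about the words of the states -/
structure Words (T Z F cap zm : ℕ) (R : ℕ → (ℕ → Prop) → ℕ → Prop) : Prop where
  node : ∀ {inc av N k}, R inc av N → k < 2048 →
    Nat.land (Nat.shiftRight N (4 * k)) 15 = 6 → ∃ t < 165, k = mt t ∧ nT T inc t % 2 = 0
  none : ∀ {inc av N t}, R inc av N → t < 165 →
    Nat.land (Nat.shiftRight N (4 * mt t)) c8S = 0 → ∀ q ∈ abv.getD t [], ¬ av q
  first : ∀ {inc av N t al}, R inc av N → t < 165 →
    al = Nat.land (Nat.shiftRight N (4 * mt t)) c8S → al ≠ 0 → ∃ Q, ∃ q ∈ abv.getD t [],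
      Q = Nat.shiftLeft (Nat.sub al (Nat.land al (Nat.sub al 1))) (4 * mt t) ∧
      av q ∧ inc.testBit q = false ∧ R inc (fun r => av r ∧ r ≠ q) (Nat.sub N Q) ∧
      Nat.land al (Nat.sub al 1) = Nat.land (Nat.shiftRight (Nat.sub N Q) (4 * mt t)) c8S ∧
      Nat.land (Nat.shiftRight (Nat.mul Q kT) 4099) cT = tmw q
  nohit : ∀ {inc av N q}, R inc av N → q < 330 → ¬ av q → inc.testBit q = false →
    Nat.land N (tmw q) = 0 → R (inc ||| 2 ^ q) av (Nat.add N (tmw q)) ∧
      ∀ t < 165, q ∈ abv.getD t [] → nT T (inc ||| 2 ^ q) t % 2 = 1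
  hit : ∀ {inc av N q N2 G N3}, R inc av N → q < 330 → ¬ av q → inc.testBit q = false →
    N2 = Nat.add (Nat.xor N (tmw q))
      (Nat.land (Nat.shiftRight (Nat.mul (Nat.land N (tmw q)) kD) 6144) c3S) →
    G = Nat.land (Nat.shiftRight (Nat.add N2 c2S) 3) cS →
    N3 = Nat.sub (Nat.add N2 (Nat.shiftLeft (Nat.mod G 15) 8192)) (Nat.mul 3 G) →
    (Nat.lor (Nat.land G zm) (Nat.land N3 cB) = 0 → R (inc ||| 2 ^ q) av N3) ∧
    (Nat.lor (Nat.land G zm) (Nat.land N3 cB) ≠ 0 →
      ∀ K, CountLe (St T Z F cap (inc ||| 2 ^ q) av) K)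
  parity : ∀ {inc av N t}, R inc av N → t < 165 → N.testBit (4 * mt t) = true →
    nT T inc t % 2 = 1
  zt : ∀ {inc av N}, R inc av N → ZT T Z F cap inc (zt zm N)
  prune : ∀ {inc av N X} {P : ℕ → Prop}, R inc av N →
    (∀ i, X.testBit i = true → ∃ t < 165, i = 4 * mt t ∧ P t) →
    ∃ av' : ℕ → Prop, R inc av' (pr N X) ∧
      ∀ q, av q → ¬ av' q → ∃ t < 165, q ∈ abv.getD t [] ∧ P t
  leaf : ∀ {inc av N}, R inc av N → Nat.land N cT = cT → CountLe (St T Z F cap inc av) 1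
  wrong : ∀ {inc av N}, R inc av N → Nat.land N cT = cT → Nat.land N c7S ≠ c5S →
    CountLe (St T Z F cap inc av) 0

/-- a word has the value `K`: bound for the members above every choice with this word -/
def Claim (T Z F cap : ℕ) (R : ℕ → (ℕ → Prop) → ℕ → Prop) (N K : ℕ) : Prop :=
  ∀ inc av, R inc av N → CountLe (St T Z F cap inc av) K

section

variable {T Z F cap zm : ℕ} {R : ℕ → (ℕ → Prop) → ℕ → Prop} {U : ℕ} {w : ℕ → ℕ}

theorem testBit_tmw {q i : ℕ} (hq : q < 330) (h : (tmw q).testBit i = true) :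
    ∃ t < 165, i = 4 * mt t ∧ q ∈ abv.getD t [] := by
  have h1 : i = 4 * (i / 4) + i % 4 := (Nat.div_add_mod i 4).symm
  have h2 : (tmw q).testBit (4 * (i / 4) + i % 4) = true := by rw [← h1]; exact h
  unfold tmw at h2
  rw [testBit_gs (by norm_num) _ _ (Nat.mod_lt _ (by norm_num)), Bool.and_eq_true,
    decide_eq_true_eq, decide_eq_true_eq] at h2
  obtain ⟨h3, h4⟩ := mem_subs.1 h2.1
  obtain ⟨t, ht, h5⟩ := exists_pos3 h3
  refine ⟨t, ht, ?_, ?_⟩
  · show i = 4 * (L 11 3).getD t 0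
    omega
  · rw [mem_abv_iff hq ht, h5]
    exact h4

theorem abv_bound {q t : ℕ} (ht : t < 165) (hq : q ∈ abv.getD t []) : q < 330 := abv_lt t ht q hq

theorem ZT.mono {inc inc' Zt : ℕ} (h : ZT T Z F cap inc Zt)
    (hinc : ∀ q, inc.testBit q = true → inc'.testBit q = true) : ZT T Z F cap inc' Zt := by
  intro i hi
  obtain ⟨t, ht, h1, h2⟩ := h i hi
  exact ⟨t, ht, h1, h2.mono hinc (fun _ _ h => h) fun _ _ h => h⟩

theorem testBit_land {a b i : ℕ} (h : (Nat.land a b).testBit i = true) :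
    a.testBit i = true ∧ b.testBit i = true := by
  have h3 : (a &&& b).testBit i = true := h
  rw [Nat.testBit_and, Bool.and_eq_true] at h3
  exact h3

theorem beq_false {a b : ℕ} (h : a ≠ b) : Nat.beq a b = false := by
  rw [← Bool.not_eq_true]
  exact fun h1 => h (Nat.eq_of_beq_eq_true h1)

/-- what is proved about the search over the stream `U` with the weights `w` -/
def Snd (T Z F cap : ℕ) (R : ℕ → (ℕ → Prop) → ℕ → Prop) (U : ℕ) (w : ℕ → ℕ) (f : Fn) : Prop :=
  ∀ N Zt a inc av, R inc av N → ZT T Z F cap inc Zt → f N Zt (Nat.shiftRight U (12 * a)) ≠ 0 →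
    ∃ b, a ≤ b ∧ f N Zt (Nat.shiftRight U (12 * a)) = Nat.shiftRight U (12 * b) ∧
      CountLe (St T Z F cap inc av) (∑ i ∈ Ico a b, w i)

/-- the child with the quad `q`: a stream `S'` and a bound -/
theorem child (W : Words T Z F cap zm R) {ih kn : Fn} (H : Snd T Z F cap R U w ih)
    {Zt rest N1 a Q q inc : ℕ} {av : ℕ → Prop} (hR : R inc av N1) (hq : q < 330) (ha : ¬ av q)
    (hi : inc.testBit q = false) (hZ : ZT T Z F cap inc Zt)
    (hQ : Nat.land (Nat.shiftRight (Nat.mul Q kT) 4099) cT = tmw q) :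
    ∃ S', c1 zm ih kn Zt rest N1 (Nat.shiftRight U (12 * a))
        (Nat.land (Nat.shiftRight (Nat.mul Q kT) 4099) cT) = kn rest N1 S' ∧
      (S' ≠ 0 → ∃ b, a ≤ b ∧ S' = Nat.shiftRight U (12 * b) ∧
        CountLe (St T Z F cap (inc ||| 2 ^ q) av) (∑ i ∈ Ico a b, w i)) := by
  have hinc : ∀ r, inc.testBit r = true → (inc ||| 2 ^ q).testBit r = true := by
    intro r hr
    rw [testBit_or_pow, hr, Bool.true_or]
  rw [hQ]
  obtain ⟨S, hS⟩ : ∃ S, S = Nat.shiftRight U (12 * a) := ⟨_, rfl⟩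
  rw [← hS]
  -- no hit
  by_cases h0 : Nat.land N1 (tmw q) = 0
  · refine ⟨ih (pr (Nat.add N1 (tmw q)) (Nat.land (tmw q) Zt)) Zt S, c1_free h0, fun hS' => ?_⟩
    obtain ⟨h1, h2⟩ := W.nohit hR hq ha hi h0
    have hX : ∀ i, (Nat.land (tmw q) Zt).testBit i = true → ∃ t < 165, i = 4 * mt t ∧
        nT T (inc ||| 2 ^ q) t % 2 = 1 ∧ BadC T Z F cap (inc ||| 2 ^ q) (mt t) := by
      intro i hb
      have hb' := testBit_land hb
      obtain ⟨t, ht, h3, h4⟩ := testBit_tmw hq hb'.1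
      obtain ⟨r, hr, h5, h6⟩ := hZ.mono hinc i hb'.2
      have h7 : t = r := getD3_inj ht hr (by
        have h8 := h3.symm.trans h5
        exact Nat.eq_of_mul_eq_mul_left (by norm_num) h8)
      subst h7
      exact ⟨t, ht, h3, h2 t ht h4, h6⟩
    obtain ⟨av0, h3, h4⟩ := W.prune (P := fun t => nT T (inc ||| 2 ^ q) t % 2 = 1 ∧
      BadC T Z F cap (inc ||| 2 ^ q) (mt t)) h1 hX
    rw [hS] at hS' ⊢
    obtain ⟨b, h5, h6, h7⟩ := H _ _ _ _ _ h3 (hZ.mono hinc) hS'
    exact ⟨b, h5, h6, St.prune_bad h7 h4⟩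
  -- hits
  · have hb := beq_false h0
    obtain ⟨N2, hN2⟩ : ∃ N2, N2 = Nat.add (Nat.xor N1 (tmw q))
      (Nat.land (Nat.shiftRight (Nat.mul (Nat.land N1 (tmw q)) kD) (nat_lit 6144)) c3S) := ⟨_, rfl⟩
    obtain ⟨G, hG⟩ : ∃ G, G = Nat.land (Nat.shiftRight (Nat.add N2 c2S) (nat_lit 3)) cS := ⟨_, rfl⟩
    obtain ⟨N3, hN3⟩ : ∃ N3, N3 = Nat.sub (Nat.add N2
      (Nat.shiftLeft (Nat.mod G (nat_lit 15)) (nat_lit 8192))) (Nat.mul (nat_lit 3) G) := ⟨_, rfl⟩
    obtain ⟨k1, k2⟩ := W.hit hR hq ha hi hN2 hG hN3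
    rw [c1_hit' hb, ← hN2, h1_eq, ← hG, h2_eq, ← hN3]
    by_cases hd : Nat.lor (Nat.land G zm) (Nat.land N3 cB) = 0
    · refine ⟨ih (pr N3 (Nat.land N3 (zt zm N3))) (zt zm N3) S, h3_alive hd, fun hS' => ?_⟩
      have hR3 := k1 hd
      have hZ3 := W.zt hR3
      have hX : ∀ i, (Nat.land N3 (zt zm N3)).testBit i = true → ∃ t < 165, i = 4 * mt t ∧
          nT T (inc ||| 2 ^ q) t % 2 = 1 ∧ BadC T Z F cap (inc ||| 2 ^ q) (mt t) := by
        intro i hb
        have hb' := testBit_land hb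
        obtain ⟨t, ht, h5, h6⟩ := hZ3 i hb'.2
        refine ⟨t, ht, h5, W.parity hR3 ht ?_, h6⟩
        rw [← h5]
        exact hb'.1
      obtain ⟨av0, h3, h4⟩ := W.prune (P := fun t => nT T (inc ||| 2 ^ q) t % 2 = 1 ∧
        BadC T Z F cap (inc ||| 2 ^ q) (mt t)) hR3 hX
      rw [hS] at hS' ⊢
      obtain ⟨b, h5, h6, h7⟩ := H _ _ _ _ _ h3 hZ3 hS'
      exact ⟨b, h5, h6, St.prune_bad h7 h4⟩
    · exact ⟨S, h3_dead (beq_false hd), fun _ => ⟨a, le_rfl, hS, k2 hd _⟩⟩

/-- failure is absorbing -/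
theorem kids_zero {ih : Fn} (h0 : ∀ N Zt, ih N Zt 0 = 0) (Zt m : ℕ) : ∀ n al N,
    kids zm ih Zt m n al N 0 = 0 := by
  intro n
  induction n with
  | zero => intro al N; rfl
  | succ n ihn =>
    intro al N
    by_cases hal : al = 0
    · rw [hal]
      exact kids_stop
    · rw [kids_next (beq_false hal), nx_eq]
      generalize Nat.land (Nat.shiftRight (Nat.mul _ kT) (nat_lit 4099)) cT = tm
      generalize Nat.sub N _ = N1
      generalize Nat.land al _ = rest
      by_cases h1 : Nat.land N1 tm = 0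
      · rw [c1_free h1, h0]
        exact ihn _ _
      · rw [c1_hit' (beq_false h1), h1_eq]
        generalize Nat.add (Nat.xor N1 tm) _ = N2
        rw [h2_eq]
        generalize Nat.land (Nat.shiftRight (Nat.add N2 c2S) (nat_lit 3)) cS = G
        generalize Nat.sub (Nat.add N2 _) _ = N3
        by_cases hd : Nat.lor (Nat.land G zm) (Nat.land N3 cB) = 0
        · rw [h3_alive hd, h0]
          exact ihn _ _
        · rw [h3_dead (beq_false hd)]
          exact ihn _ _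

theorem dfs_zero {ot : Fn} (h0 : ∀ N, ot N 0 0 = 0) : ∀ n N Zt, dfs zm ot n N Zt 0 = 0 := by
  intro n
  induction n with
  | zero => intro N Zt; rfl
  | succ n ihn =>
    intro N Zt
    rw [dfs_succ]
    have e1 : Nat.land 0 (nat_lit 8188) = 0 := rfl
    have e2 : Nat.shiftRight 0 (nat_lit 12) = 0 := rfl
    have e3 : Nat.land 0 (nat_lit 16380) = 0 := rfl
    rw [e1, e2]
    by_cases h : Nat.land (Nat.shiftRight N 0) (nat_lit 15) = nat_lit 6
    · rw [nd1_node h]
      exact kids_zero ihn _ _ _ _ _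
    · rw [nd1_oth (beq_false h), e3]
      exact h0 N

/-- **the children** -/
theorem kids_sound (W : Words T Z F cap zm R) {ih : Fn} (H : Snd T Z F cap R U w ih)
    (hih : ∀ N Zt, ih N Zt 0 = 0)
    {Zt t : ℕ} (ht : t < 165) : ∀ n al N a inc av, R inc av N → ZT T Z F cap inc Zt →
    nT T inc t % 2 = 0 → al = Nat.land (Nat.shiftRight N (4 * mt t)) c8S →
    kids zm ih Zt (4 * mt t) n al N (Nat.shiftRight U (12 * a)) ≠ 0 →
    ∃ b, a ≤ b ∧ kids zm ih Zt (4 * mt t) n al N (Nat.shiftRight U (12 * a)) =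
        Nat.shiftRight U (12 * b) ∧
      CountLe (St T Z F cap inc av) (∑ i ∈ Ico a b, w i) := by
  intro n
  induction n with
  | zero =>
    intro al N a inc av _ _ _ _ h
    exact absurd rfl h
  | succ n ihn =>
    intro al N a inc av hR hZ hev hal h
    by_cases h0 : al = 0
    · have h1 : kids zm ih Zt (4 * mt t) (n + 1) al N (Nat.shiftRight U (12 * a)) =
          Nat.shiftRight U (12 * a) := by
        rw [h0]
        exact kids_stop
      refine ⟨a, le_rfl, h1, St.dead_row ht hev (fun q hq hav => ?_) _⟩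
      exact absurd hav (W.none hR ht (hal ▸ h0) q hq)
    · obtain ⟨Q, q, hq, hQ, hav, hi, hR1, hal1, hT⟩ := W.first hR ht hal h0
      have hq3 := abv_bound ht hq
      obtain ⟨S', h1, h2⟩ := child (U := U) (w := w) (a := a)
        (kn := kids zm ih Zt (4 * mt t) n) W H
        (rest := Nat.land al (Nat.sub al 1)) (Zt := Zt) (Q := Q)
        hR1 hq3 (fun h => h.2 rfl) hi hZ hT
      have h3 : kids zm ih Zt (4 * mt t) (n + 1) al N (Nat.shiftRight U (12 * a)) =
          kids zm ih Zt (4 * mt t) n (Nat.land al (Nat.sub al 1)) (Nat.sub N Q) S' := by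
        rw [kids_next (beq_false h0), nx_eq, ← h1, hQ]
      rw [h3] at h ⊢
      have hS0 : S' ≠ 0 := by
        intro hz
        rw [hz] at h
        exact h (kids_zero hih _ _ _ _ _)
      obtain ⟨b, h4, h5, h6⟩ := h2 hS0
      rw [h5] at h ⊢
      obtain ⟨c, h7, h8, h9⟩ := ihn _ _ _ _ _ hR1 hZ hev hal1 h
      refine ⟨c, h4.trans h7, h8, ?_⟩
      rw [← sum_Ico_consecutive w h4 h7]
      exact St.split h6 h9 hi

theorem shift_twelve (U a : ℕ) : Nat.shiftRight (Nat.shiftRight U (12 * a)) (nat_lit 12) =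
    Nat.shiftRight U (12 * (a + 1)) := by
  have e : Nat.shiftRight (Nat.shiftRight U (12 * a)) (nat_lit 12) = U >>> (12 * a) >>> 12 := rfl
  have e2 : Nat.shiftRight U (12 * (a + 1)) = U >>> (12 * a + 12) := by
    rw [Nat.mul_add]
    rfl
  rw [e, e2, Nat.shiftRight_add]

/-- **the search** -/
theorem dfs_sound (W : Words T Z F cap zm R) {ot : Fn} (hot : ∀ N, ot N 0 0 = 0)
    (hJ : ∀ a N, ot N (Nat.shiftRight U (12 * (a + 1)))
        (Nat.land (Nat.shiftRight U (12 * a)) 16380) ≠ 0 →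
      ot N (Nat.shiftRight U (12 * (a + 1))) (Nat.land (Nat.shiftRight U (12 * a)) 16380) =
        Nat.shiftRight U (12 * (a + 1)) ∧ Claim T Z F cap R N (w a)) :
    ∀ n, Snd T Z F cap R U w (dfs zm ot n) := by
  intro n
  induction n with
  | zero =>
    intro N Zt a inc av _ _ h
    exact absurd rfl h
  | succ n ihn =>
    intro N Zt a inc av hR hZ h
    have hs : Nat.shiftRight (Nat.shiftRight U (12 * a)) (nat_lit 12) =
        Nat.shiftRight U (12 * (a + 1)) := shift_twelve U a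
    obtain ⟨k, hk, hm⟩ := sym_cases (Nat.shiftRight U (12 * a))
    by_cases h6 : Nat.land (Nat.shiftRight N (4 * k)) 15 = 6
    · obtain ⟨t, ht, rfl, hev⟩ := W.node hR hk h6
      have h1 : dfs zm ot (n + 1) N Zt (Nat.shiftRight U (12 * a)) =
          kids zm (dfs zm ot n) Zt (4 * mt t) 9
          (Nat.land (Nat.shiftRight N (4 * mt t)) c8S) N (Nat.shiftRight U (12 * (a + 1))) := by
        have e : Nat.land (Nat.shiftRight U (12 * a)) (nat_lit 8188) = 4 * mt t := hm
        rw [dfs_succ, e, hs, nd1_node h6]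
      rw [h1] at h ⊢
      obtain ⟨b, h2, h3, h4⟩ := kids_sound W ihn (dfs_zero hot n) ht _ _ _ _ _ _ hR hZ hev rfl h
      refine ⟨b, by omega, h3, countLe_le ?_ h4⟩
      exact sum_le_sum_of_subset (Ico_subset_Ico_left (by omega))
    · have h1 : dfs zm ot (n + 1) N Zt (Nat.shiftRight U (12 * a)) =
          ot N (Nat.shiftRight U (12 * (a + 1)))
            (Nat.land (Nat.shiftRight U (12 * a)) 16380) := by
        have e : Nat.land (Nat.shiftRight U (12 * a)) (nat_lit 8188) = 4 * k := hm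
        rw [dfs_succ, e, hs, nd1_oth (beq_false h6)]
      rw [h1] at h ⊢
      obtain ⟨h2, h3⟩ := hJ _ _ h
      refine ⟨a + 1, by omega, h2, ?_⟩
      rw [sum_Ico_succ_top le_rfl, Ico_self, sum_empty, Nat.zero_add]
      exact h3 _ _ hR

/-! ## parts -/

theorem call_zero (U N : ℕ) (J : List ((ℕ × ℕ) × ℕ)) : call U N 0 J = 0 := by
  induction J with
  | nil => rfl
  | cons j J ih =>
    show @Bool.rec (fun _ => ℕ) (call U N 0 J)
      (@Bool.rec (fun _ => ℕ) (call U N 0 J) 0 (Nat.beq 0 (Nat.shiftRight U j.2)))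
      (Nat.beq N j.1.1) = 0
    rw [ih]
    cases Nat.beq N j.1.1 <;> cases Nat.beq 0 (Nat.shiftRight U j.2) <;> rfl

theorem oth_zero (U : ℕ) (J : List ((ℕ × ℕ) × ℕ)) (N : ℕ) : oth U J N 0 0 = 0 := by
  show @Bool.rec (fun _ => ℕ) (nat_lit 0)
    (@Bool.rec (fun _ => ℕ) 0 (nat_lit 0) (Nat.beq (Nat.land N c7S) c5S))
    (Nat.beq (Nat.land N cT) cT) = 0
  cases Nat.beq (Nat.land N cT) cT <;> cases Nat.beq (Nat.land N c7S) c5S <;> rfl

/-- **a part**: if all the claims it calls hold, then its claim holds -/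
theorem part_sound (W : Words T Z F cap zm R) {J : List ((ℕ × ℕ) × ℕ)} {j : ℕ × ℕ}
    (hJ : ∀ i ∈ J, Claim T Z F cap R i.1.1 i.1.2) (h : part zm J j U = true) :
    Claim T Z F cap R j.1 j.2 := by
  obtain ⟨h1, h2, h3⟩ := part_spec h
  have key := dfs_sound (U := U) (w := WJ U J) W (ot := oth U J) (oth_zero U J) (by
    intro a N h4
    obtain ⟨h5, h6⟩ := oth_weight h4
    refine ⟨h5, fun inc av hR => ?_⟩
    rcases h6 with ⟨h7, h8⟩ | ⟨h7, h8⟩ | ⟨i, hi, h7, h8⟩
    · exact countLe_le h8 (W.leaf hR h7)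
    · exact countLe_le (Nat.zero_le _) (W.wrong hR h7 h8)
    · exact countLe_le h8 (hJ i hi inc av (h7 ▸ hR))) (nat_lit 60)
  intro inc av hR
  have e : Nat.shiftRight U (12 * 0) = U := rfl
  have hne : dfs zm (oth U J) (nat_lit 60) j.1 (zt zm j.1) (Nat.shiftRight U (12 * 0)) ≠ 0 := by
    rw [e]
    intro h4
    rw [h4] at h1
    exact absurd h1 (by decide)
  obtain ⟨b, -, h5, h6⟩ := key _ _ 0 inc av hR (W.zt hR) hne
  rw [e] at h5
  rw [h5] at h1
  refine countLe_le ?_ h6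
  rw [← range_eq_Ico]
  exact (sum_WJ_le J h2 h1).trans h3

end

end Pool.Agent.Helper58.TI
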