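import Pool.Agent.Helper57.TZ.Kid
import Pool.Agent.Helper58.TB.Ind

/-!
MP_8ee768_co, project TH-Y', stage 0: soundness of the search over a stream, directly on the relation
`NRel` between the words and the partial choices.
-/

set_option autoImplicit false

namespace Pool.Agent.Helper58.TI

open Finset
open Pool.Agent.Helper79.CV (L length_L)
open Pool.Agent.Helper69.TY (CountLe abv pcb)
open Pool.Agent.Helper69.TY.V3
open Pool.Agent.Helper58.TB (nT hv SubRun CountSub countLe_mono countLe_le countLe_zero)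
open Pool.Agent.Helper57.TZ
open Pool.Agent.Helper63.SIMD (pk)
open Pool.Agent.Helper97.TY (gs)
open Pool.Agent.Helper28.TY.V3T (test_par al_eq gs_eq_zero)
open Pool.Agent.Helper54.TZ (WJ oth_weight part_spec sum_WJ_le land_cT land_c7S TR)

/-- `N` is the word of the choice `inc` with the available blocks `av` -/
def RN (T Z F cap inc : ℕ) (av : ℕ → Prop) (N : ℕ) : Prop :=
  ∃ w : ℕ → ℕ, N = pk 4 2049 w ∧ NRel T Z F cap inc av w

/-- the claim of a word -/
def Cl (T Z F cap N K : ℕ) : Prop := Claim T Z F cap (RN T Z F cap) N K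

/-- the conditions on a sub-run -/
structure ZOK (T Z F cap zm : ℕ) : Prop where
  T19 : pcb T 165 = 19
  cap6 : cap ≤ 6
  zs : ∃ zs : Finset ℕ, zm = gs 4 zs ∧ (∀ a ∈ zs, a < 2049) ∧
    ∀ v < 11, 2 ^ v ∈ zs → Z.testBit v = true

section

variable {T Z F cap : ℕ} {zs : Finset ℕ} {U : ℕ} {w : ℕ → ℕ}

/-- what is proved about the search over the stream `U` with the weights `w` -/
def Snd2 (T Z F cap U : ℕ) (w : ℕ → ℕ) (f : Fn) : Prop :=
  ∀ (x : ℕ → ℕ) (Zs : Finset ℕ) (a inc : ℕ) (av : ℕ → Prop), NRel T Z F cap inc av x →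
    ZRel T Z F cap inc Zs → f (pk 4 2049 x) (gs 4 Zs) (Nat.shiftRight U (12 * a)) ≠ 0 →
    ∃ b, a ≤ b ∧ f (pk 4 2049 x) (gs 4 Zs) (Nat.shiftRight U (12 * a)) =
        Nat.shiftRight U (12 * b) ∧
      CountLe (St T Z F cap inc av) (∑ i ∈ Ico a b, w i)

/-- **the children** -/
theorem kids_sound2 (hcap : cap ≤ 6) (hzs : ∀ a ∈ zs, a < 2049)
    (hz : ∀ v < 11, 2 ^ v ∈ zs → Z.testBit v = true) {ih : Fn} (H : Snd2 T Z F cap U w ih)
    (hih : ∀ N Zt, ih N Zt 0 = 0) {t : ℕ} (ht : t < 165) : ∀ (n : ℕ) (x : ℕ → ℕ) (Zs : Finset ℕ)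
    (a inc : ℕ) (av : ℕ → Prop), NRel T Z F cap inc av x → ZRel T Z F cap inc Zs →
    nT T inc t % 2 = 0 →
    kids (gs 4 zs) ih (gs 4 Zs) (4 * M3 t) n (8 * gs 4 (candW x (M3 t))) (pk 4 2049 x)
      (Nat.shiftRight U (12 * a)) ≠ 0 →
    ∃ b, a ≤ b ∧ kids (gs 4 zs) ih (gs 4 Zs) (4 * M3 t) n (8 * gs 4 (candW x (M3 t)))
        (pk 4 2049 x) (Nat.shiftRight U (12 * a)) = Nat.shiftRight U (12 * b) ∧
      CountLe (St T Z F cap inc av) (∑ i ∈ Ico a b, w i) := by
  intro n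
  induction n with
  | zero =>
    intro x Zs a inc av _ _ _ h
    exact absurd rfl h
  | succ n ihn =>
    intro x Zs a inc av hR hZ hev h
    by_cases h0 : candW x (M3 t) = ∅
    · have e0 : 8 * gs 4 (candW x (M3 t)) = 0 := by
        rw [h0]
        rfl
      rw [e0, kids_stop]
      exact ⟨a, le_rfl, rfl, hR.no_cand ht hev h0 _⟩
    · obtain ⟨q, ha, hk⟩ := hR.kidStep ht h0 (gs 4 zs) (gs 4 Zs) n (Nat.shiftRight U (12 * a)) ih
      rw [hk] at h ⊢
      have hi := hR.dis q ha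
      have hR1 := hR.rmW ha
      rcases hR.child (by omega) ha hzs hz hZ ih
        (kids (gs 4 zs) ih (gs 4 Zs) (4 * M3 t) n) (8 * gs 4 (candW (rmvW x (M4 q)) (M3 t)))
        (Nat.shiftRight U (12 * a)) with ⟨h1, h2⟩ | ⟨av', w', Zs', h1, h2, h3, h4⟩
      · rw [h1] at h ⊢
        obtain ⟨b, h5, h6, h7⟩ := ihn _ _ _ _ _ hR1 hZ hev h
        refine ⟨b, h5, h6, ?_⟩
        have h8 := St.split (h2 0) h7 hi
        rw [Nat.zero_add] at h8
        exact h8
      · rw [h1] at h ⊢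
        have hS0 : ih (pk 4 2049 w') (gs 4 Zs') (Nat.shiftRight U (12 * a)) ≠ 0 := by
          intro hz
          rw [hz] at h
          exact h (kids_zero hih _ _ _ _ _)
        obtain ⟨b, h5, h6, h7⟩ := H _ _ _ _ _ h2 h3 hS0
        rw [h6] at h ⊢
        obtain ⟨c, h8, h9, h10⟩ := ihn _ _ _ _ _ hR1 hZ hev h
        refine ⟨c, h5.trans h8, h9, ?_⟩
        rw [← sum_Ico_consecutive w h5 h8]
        exact St.split (h4 _ h7) h10 hi

/-- **the search** -/
theorem dfs_sound2 (hcap : cap ≤ 6) (hzs : ∀ a ∈ zs, a < 2049)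
    (hz : ∀ v < 11, 2 ^ v ∈ zs → Z.testBit v = true) {ot : Fn} (hot : ∀ N, ot N 0 0 = 0)
    (hJ : ∀ a N, ot N (Nat.shiftRight U (12 * (a + 1)))
        (Nat.land (Nat.shiftRight U (12 * a)) 16380) ≠ 0 →
      ot N (Nat.shiftRight U (12 * (a + 1))) (Nat.land (Nat.shiftRight U (12 * a)) 16380) =
        Nat.shiftRight U (12 * (a + 1)) ∧ Cl T Z F cap N (w a)) :
    ∀ n, Snd2 T Z F cap U w (dfs (gs 4 zs) ot n) := by
  intro n
  induction n with
  | zero =>
    intro x Zs a inc av _ _ h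
    exact absurd rfl h
  | succ n ihn =>
    intro x Zs a inc av hR hZ h
    have hs : Nat.shiftRight (Nat.shiftRight U (12 * a)) (nat_lit 12) =
        Nat.shiftRight U (12 * (a + 1)) := shift_twelve U a
    have hw := hR.w_lt (by omega)
    have hb := hR.bud_lt (by omega)
    obtain ⟨k, hk, hm⟩ := sym_cases (Nat.shiftRight U (12 * a))
    have hm' : Nat.land (Nat.shiftRight U (12 * a)) (nat_lit 8188) = 4 * k := hm
    have hp := test_par hw hk
    by_cases h6 : x k = 6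
    · obtain ⟨t, ht, rfl, hev⟩ := hR.node hk h6
      rw [h6] at hp
      have h1 : dfs (gs 4 zs) ot (n + 1) (pk 4 2049 x) (gs 4 Zs) (Nat.shiftRight U (12 * a)) =
          kids (gs 4 zs) (dfs (gs 4 zs) ot n) (gs 4 Zs) (4 * M3 t) (nat_lit 9)
          (8 * gs 4 (candW x (M3 t))) (pk 4 2049 x) (Nat.shiftRight U (12 * (a + 1))) := by
        rw [dfs_succ, hm', hs, nd1_node hp, al_eq hw hb]
      rw [h1] at h ⊢
      obtain ⟨b, h2, h3, h4⟩ := kids_sound2 hcap hzs hz ihn (dfs_zero hot n) ht _ _ _ _ _ _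
        hR hZ hev h
      refine ⟨b, by omega, h3, countLe_le ?_ h4⟩
      exact sum_le_sum_of_subset (Ico_subset_Ico_left (by omega))
    · have h1 : dfs (gs 4 zs) ot (n + 1) (pk 4 2049 x) (gs 4 Zs) (Nat.shiftRight U (12 * a)) =
          ot (pk 4 2049 x) (Nat.shiftRight U (12 * (a + 1)))
            (Nat.land (Nat.shiftRight U (12 * a)) 16380) := by
        have h7 : Nat.beq (Nat.land (Nat.shiftRight (pk 4 2049 x) (4 * k)) (nat_lit 15))
            (nat_lit 6) = false := by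
          refine beq_false ?_
          rw [hp]
          exact h6
        rw [dfs_succ, hm', hs, nd1_oth h7]
      rw [h1] at h ⊢
      obtain ⟨h2, h3⟩ := hJ _ _ h
      refine ⟨a + 1, by omega, h2, ?_⟩
      rw [sum_Ico_succ_top le_rfl, Ico_self, sum_empty, Nat.zero_add]
      exact h3 _ _ ⟨x, rfl, hR⟩

/-- **a part**: if all the claims it calls hold, then its claim holds -/
theorem part_sound2 {zm : ℕ} (z : ZOK T Z F cap zm) {J : List ((ℕ × ℕ) × ℕ)} {j : ℕ × ℕ}
    (hJ : ∀ i ∈ J, Cl T Z F cap i.1.1 i.1.2) (h : part zm J j U = true) :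
    Cl T Z F cap j.1 j.2 := by
  obtain ⟨hT, hcap, zs, rfl, hzs, hz⟩ := z
  obtain ⟨h1, h2, h3⟩ := part_spec h
  have key := dfs_sound2 (T := T) (F := F) (U := U) (w := WJ U J) (ot := oth U J) hcap hzs hz
    (oth_zero U J) (by
    intro a N h4
    obtain ⟨h5, h6⟩ := oth_weight h4
    refine ⟨h5, ?_⟩
    rintro inc av ⟨x, hx, hR⟩
    rw [hx] at h6
    have hw := hR.w_lt (by omega)
    have h70 : Nat.land (pk 4 2049 x) cT = cT → ∀ m ∈ L 11 3, x m = 7 := by
      intro h m hm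
      obtain ⟨t, ht, h9⟩ := exists_pos3 hm
      have h8 := (land_cT hw).1 h _ (mem_TR.2 hm)
      have h10 : M3 t = m := h9
      have h11 := hR.tri t ht
      rw [h10] at h11
      omega
    rcases h6 with ⟨h7, h8⟩ | ⟨h7, h8⟩ | ⟨i, hi, h7, h8⟩
    · exact countLe_le h8 (hR.leafGood hT hcap (h70 h7))
    · refine hR.leafWrong hT hcap (h70 h7) ?_ _
      by_contra hne
      refine h8 ((land_c7S hw).2 fun v hv' => ?_)
      have h9 : x (2 ^ v) = 5 := by
        by_contra h10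
        exact hne ⟨v, hv', h10⟩
      rw [h9]
    · exact countLe_le h8 (hJ i hi inc av ⟨x, h7.symm, hR⟩)) (nat_lit 60)
  rintro inc av ⟨x, hx, hR⟩
  obtain ⟨Zs, hZs, hZ⟩ := hR.zt (by omega) hz
  have e : Nat.shiftRight U (12 * 0) = U := rfl
  rw [hx, hZs] at h1
  have hne : dfs (gs 4 zs) (oth U J) (nat_lit 60) (pk 4 2049 x) (gs 4 Zs)
      (Nat.shiftRight U (12 * 0)) ≠ 0 := by
    rw [e]
    intro h4
    rw [h4] at h1
    exact absurd h1 (by decide)
  obtain ⟨b, -, h5, h6⟩ := key _ _ 0 inc av hR hZ hne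
  rw [e] at h5
  rw [h5] at h1
  refine countLe_le ?_ h6
  rw [← range_eq_Ico]
  exact (sum_WJ_le J h2 h1).trans h3

end

end Pool.Agent.Helper58.TI
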