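import Pool.Agent.Helper58.TB.Count

/-!
MP_8ee768_co, project TH-Y': soundness of a breadth first search which records only a word per partial
choice.

`Cov S word mk L`: for every finite set of solutions the words of the DIFFERENT partial choices
`e &&& mk` form a sub-multiset of `L`.
-/

set_option autoImplicit false

namespace Pool.Agent.Helper58.TB

open Finset
open Pool.Agent.Helper69.TY (CountLe)

/-- the words of the partial choices of all solutions are in the multiset `L` of lanes -/
def Cov (S : ℕ → Prop) (word : ℕ → ℕ) (mk : ℕ) (L : Multiset ℕ) : Prop :=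
  ∀ F : Finset ℕ, (∀ e ∈ F, S e) → (F.image fun e => e &&& mk).val.map word ≤ L

theorem cov_zero {S : ℕ → Prop} {word : ℕ → ℕ} : Cov S word 0 {word 0} := by
  intro F _
  by_cases h : F = ∅
  · subst h
    exact Multiset.zero_le _
  · have h1 : (F.image fun e => e &&& 0) = {0} := by
      ext x
      rw [mem_image, mem_singleton]
      constructor
      · rintro ⟨e, -, rfl⟩
        exact Nat.and_zero e
      · rintro rfl
        obtain ⟨e, he⟩ := nonempty_iff_ne_empty.2 h
        exact ⟨e, he, Nat.and_zero e⟩
    rw [h1]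
    simp

theorem cov_mono {S : ℕ → Prop} {word : ℕ → ℕ} {mk : ℕ} {L L' : Multiset ℕ}
    (h : Cov S word mk L) (hL : L ≤ L') : Cov S word mk L' := fun F hF => (h F hF).trans hL

/-- removing the lanes which fail a test passed by all the solutions -/
theorem cov_filter {S : ℕ → Prop} {word : ℕ → ℕ} {mk : ℕ} {L : Multiset ℕ} (ok : ℕ → Bool)
    (hok : ∀ e, S e → ok (word (e &&& mk)) = true) (h : Cov S word mk L) :
    Cov S word mk (L.filter fun x => ok x = true) := by
  intro F hF
  have h1 : (F.image fun e => e &&& mk).val.map word =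
      ((F.image fun e => e &&& mk).val.map word).filter fun x => ok x = true := by
    symm
    rw [Multiset.filter_eq_self]
    intro x hx
    rw [Multiset.mem_map] at hx
    obtain ⟨E, hE, rfl⟩ := hx
    have hE' : E ∈ F.image fun e => e &&& mk := hE
    rw [mem_image] at hE'
    obtain ⟨e, he, rfl⟩ := hE'
    exact hok e (hF e he)
  rw [h1]
  exact Multiset.filter_le_filter _ (h F hF)

theorem land_or_of_false {e mk q : ℕ} (h : e.testBit q = false) :
    e &&& (mk ||| 2 ^ q) = e &&& mk := by
  refine Nat.eq_of_testBit_eq fun i => ?_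
  rw [Nat.testBit_and, Nat.testBit_and, Nat.testBit_or, Nat.testBit_two_pow]
  by_cases hi : q = i
  · subst hi
    rw [h]
    rfl
  · rw [decide_eq_false hi, Bool.or_false]

theorem land_or_of_true {e mk q : ℕ} (h : e.testBit q = true) :
    e &&& (mk ||| 2 ^ q) = (e &&& mk) ||| 2 ^ q := by
  refine Nat.eq_of_testBit_eq fun i => ?_
  rw [Nat.testBit_and, Nat.testBit_or, Nat.testBit_or, Nat.testBit_and, Nat.testBit_two_pow]
  by_cases hi : q = i
  · subst hi
    rw [h]
    simp
  · rw [decide_eq_false hi, Bool.or_false, Bool.or_false]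

/-- **one layer**: the block `q` is decided -/
theorem cov_step {S : ℕ → Prop} {word : ℕ → ℕ} {mk q : ℕ} {inc : ℕ → ℕ} {L : Multiset ℕ}
    (hq : mk.testBit q = false)
    (hw : ∀ e, S e → e.testBit q = true → word ((e &&& mk) ||| 2 ^ q) = inc (word (e &&& mk)))
    (h : Cov S word mk L) : Cov S word (mk ||| 2 ^ q) (L + L.map inc) := by
  intro F hF
  obtain ⟨F0, hF0⟩ : ∃ F0, F0 = F.filter fun e => e.testBit q = false := ⟨_, rfl⟩
  obtain ⟨F1, hF1⟩ : ∃ F1, F1 = F.filter fun e => e.testBit q = true := ⟨_, rfl⟩
  have e0 : (F0.image fun e => e &&& (mk ||| 2 ^ q)) = F0.image fun e => e &&& mk := by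
    refine image_congr fun e he => ?_
    rw [hF0, mem_coe, mem_filter] at he
    exact land_or_of_false he.2
  have e1 : (F1.image fun e => e &&& (mk ||| 2 ^ q)) =
      (F1.image fun e => e &&& mk).image fun E => E ||| 2 ^ q := by
    rw [image_image]
    refine image_congr fun e he => ?_
    rw [hF1, mem_coe, mem_filter] at he
    exact land_or_of_true he.2
  have hU : F = F0 ∪ F1 := by
    ext e
    rw [hF0, hF1, mem_union, mem_filter, mem_filter]
    cases h1 : e.testBit q <;> simp
  have hE : ∀ E ∈ F1.image (fun e => e &&& mk), E.testBit q = false := by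
    intro E hE
    rw [mem_image] at hE
    obtain ⟨e, -, rfl⟩ := hE
    rw [Nat.testBit_and, hq, Bool.and_false]
  have hdisj : Disjoint (F0.image fun e => e &&& (mk ||| 2 ^ q))
      (F1.image fun e => e &&& (mk ||| 2 ^ q)) := by
    rw [disjoint_left]
    intro E h1 h2
    rw [mem_image] at h1 h2
    obtain ⟨e, he, rfl⟩ := h1
    obtain ⟨e', he', h3⟩ := h2
    rw [hF0, mem_filter] at he
    rw [hF1, mem_filter] at he'
    have h4 := congrArg (fun v => Nat.testBit v q) h3
    simp only [Nat.testBit_and, Nat.testBit_or, Nat.testBit_two_pow_self, Bool.or_true,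
      Bool.and_true, he.2, he'.2] at h4
    exact Bool.noConfusion h4
  have hval : (F.image fun e => e &&& (mk ||| 2 ^ q)).val =
      (F0.image fun e => e &&& (mk ||| 2 ^ q)).val +
        (F1.image fun e => e &&& (mk ||| 2 ^ q)).val := by
    rw [hU, image_union, ← disjUnion_eq_union _ _ hdisj]
    rfl
  have hinj : Set.InjOn (fun E : ℕ => E ||| 2 ^ q) (F1.image fun e => e &&& mk) := by
    intro E h1 E' h2 h3
    rw [mem_coe] at h1 h2
    refine Nat.eq_of_testBit_eq fun i => ?_
    by_cases hi : q = i
    · subst hi
      rw [hE E h1, hE E' h2]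
    · have h4 := congrArg (fun v => Nat.testBit v i) h3
      simp only [Nat.testBit_or, Nat.testBit_two_pow, decide_eq_false hi, Bool.or_false] at h4
      exact h4
  have hv1 : (F1.image fun e => e &&& (mk ||| 2 ^ q)).val =
      (F1.image fun e => e &&& mk).val.map fun E => E ||| 2 ^ q := by
    rw [e1]
    exact image_val_of_injOn hinj
  have hw1 : ((F1.image fun e => e &&& mk).val.map fun E => E ||| 2 ^ q).map word =
      ((F1.image fun e => e &&& mk).val.map word).map inc := by
    rw [Multiset.map_map, Multiset.map_map]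
    refine Multiset.map_congr rfl fun E hE' => ?_
    have h1 : E ∈ F1.image fun e => e &&& mk := hE'
    rw [mem_image] at h1
    obtain ⟨e, he, rfl⟩ := h1
    rw [hF1, mem_filter] at he
    exact hw e (hF e he.1) he.2
  rw [hval, Multiset.map_add, hv1, hw1, e0]
  refine add_le_add (h F0 fun e he => hF e ?_) (Multiset.map_le_map (h F1 fun e he => hF e ?_))
  · rw [hF0, mem_filter] at he
    exact he.1
  · rw [hF1, mem_filter] at he
    exact he.1

/-- **the end**: the number of lanes bounds the number of solutions -/
theorem countLe_of_cov {S : ℕ → Prop} {word : ℕ → ℕ} {mk : ℕ} {L : Multiset ℕ}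
    (hS : ∀ e, S e → e &&& mk = e) (h : Cov S word mk L) : CountLe S (Multiset.card L) := by
  intro F hF
  have h1 := Multiset.card_le_card (h F hF)
  rw [Multiset.card_map] at h1
  have h2 : (F.image fun e => e &&& mk) = F := by
    have h3 : ∀ e ∈ F, e &&& mk = id e := fun e he => hS e (hF e he)
    rw [image_congr h3, image_id]
  rw [h2] at h1
  exact h1

end Pool.Agent.Helper58.TB
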