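import Pool.Agent.Helper58.TB.Search2

/-!
MP_8ee768_co, project TH-Y': a complete state of the search has one solution.
-/

set_option autoImplicit false

namespace Pool.Agent.Helper58.TB

open Finset
open Pool.Agent.Helper89.CV (ofMask)
open Pool.Agent.Helper97.CV
open Pool.Agent.Helper79.CV
open Pool.Agent.Helper82.TY (below)
open Pool.Agent.Helper69.TY (CountLe Ent abv abv_eq xb parL pcb above mem_above)

/-- a nonempty even family of quads has at least five members -/
theorem five_le {R : Finset (Finset (Fin 13))} (hR : ∀ b ∈ R, b.card = 4)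
    (hev : ∀ b ∈ R, ∀ s ⊆ b, s.card = 3 → cnt R s % 2 = 0) (hne : R.Nonempty) : 5 ≤ R.card := by
  obtain ⟨b, hb⟩ := hne
  have h1 : ∀ x : Fin 13, ∃ c, x ∈ b → c ∈ R ∧ c ≠ b ∧ b.erase x ⊆ c := by
    intro x
    by_cases hx : x ∈ b
    · have h2 := hev b hb (b.erase x) (erase_subset x b) (by
        rw [card_erase_of_mem hx, hR b hb])
      have h3 : b ∈ R.filter fun c => b.erase x ⊆ c := mem_filter.2 ⟨hb, erase_subset x b⟩
      unfold cnt at h2
      have h4 : 1 < (R.filter fun c => b.erase x ⊆ c).card := by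
        have : 0 < (R.filter fun c => b.erase x ⊆ c).card := card_pos.2 ⟨b, h3⟩
        omega
      obtain ⟨c, hc, hcb⟩ := exists_mem_ne h4 b
      rw [mem_filter] at hc
      exact ⟨c, fun _ => ⟨hc.1, hcb, hc.2⟩⟩
    · exact ⟨b, fun h => absurd h hx⟩
  choose f hf using h1
  have h2 : Set.InjOn f b := by
    intro x hx y hy hxy
    by_contra hne
    have h3 := hf x hx
    have h4 := hf y hy
    rw [← hxy] at h4
    refine h3.2.1 ?_
    symm
    refine eq_of_subset_of_card_le (fun z hz => ?_) (by rw [hR b hb, hR _ h3.1])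
    by_cases hzx : z = x
    · subst hzx
      exact h4.2.2 (mem_erase.2 ⟨fun h => hne h, hz⟩)
    · exact h3.2.2 (mem_erase.2 ⟨hzx, hz⟩)
  have h3 : insert b (b.image f) ⊆ R := by
    intro c hc
    rw [mem_insert, mem_image] at hc
    rcases hc with rfl | ⟨x, hx, rfl⟩
    · exact hb
    · exact (hf x hx).1
  have h4 : b ∉ b.image f := by
    rw [mem_image]
    rintro ⟨x, hx, h⟩
    exact (hf x hx).2.1 h
  have h5 := card_le_card h3
  rw [card_insert_of_notMem h4, card_image_of_injOn h2, hR b hb] at h5
  exact h5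

/-- counting the triples of the quads of a family on `{0, .., 10}` -/
theorem sum_cnt {D : Finset (Finset (Fin 13))} (hD : ∀ b ∈ D, Sub 11 4 b) :
    ∑ s ∈ tri 11, cnt D s = 4 * D.card := by
  have h1 : ∀ s ∈ tri 11, cnt D s = ∑ b ∈ D, if s ⊆ b then 1 else 0 := by
    intro s _
    unfold cnt
    rw [card_filter]
  rw [sum_congr rfl h1, sum_comm]
  have h2 : ∀ b ∈ D, (∑ s ∈ tri 11, if s ⊆ b then 1 else 0) = 4 := by
    intro b hb
    rw [← card_filter]
    have h3 : (tri 11).filter (fun s => s ⊆ b) = powersetCard 3 b := by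
      ext s
      rw [mem_filter, mem_tri, mem_powersetCard]
      constructor
      · rintro ⟨⟨-, h4⟩, h5⟩
        exact ⟨h5, h4⟩
      · rintro ⟨h4, h5⟩
        refine ⟨⟨fun x hx => ?_, h5⟩, h4⟩
        rw [mem_below]
        exact mk_lt_iff.1 (hD b hb).1 x (h4 hx)
    rw [h3, card_powersetCard, (hD b hb).2]
    rfl
  rw [sum_congr rfl h2, sum_const, smul_eq_mul, Nat.mul_comm]

/-- a triple of `{0, .., 10}` by its position -/
theorem exists_pos {s : Finset (Fin 13)} (hs : Sub 11 3 s) :
    ∃ t < 165, ofMask ((L 11 3).getD t 0) = s := by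
  have hl := rk_lt (by norm_num : 11 ≤ 13) hs
  refine ⟨rk 11 3 s, by rw [length_L] at hl; exact hl, ?_⟩
  rw [List.getD_eq_getElem _ _ hl]
  exact ofMask_getElem_rk (by norm_num) hs

theorem mask_lt {t : ℕ} (ht : t < 165) : (L 11 3).getD t 0 < 2 ^ 13 := by
  have hl : t < (L 11 3).length := by rw [length_L]; exact ht
  rw [List.getD_eq_getElem _ _ hl]
  exact lt_of_lt_of_le (lt_of_mem_L (List.getElem_mem hl)) (Nat.pow_le_pow_right (by norm_num) (by norm_num))

theorem cb_eq_cnt {e t : ℕ} (ht : t < 165) :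
    cb e (abv.getD t []) = cnt (fam 11 4 e) (ofMask ((L 11 3).getD t 0)) := by
  rw [cnt_fam (by norm_num) (mask_lt ht), ← abv_getD ht]

variable {T m : ℕ} {forb : List ℕ} {cap : ℕ}

/-- number of the blocks of a complete state -/
theorem card_complete {inc : ℕ} (hT : pcb T 165 = 19) (h : ∀ t < 165, nT T inc t % 2 = 1) :
    37 ≤ pcb inc 330 := by
  have h1 := sum_cnt (D := fam 11 4 inc) fun b hb => sub_of_mem_fam (by norm_num) hb
  rw [card_fam 11 4 inc (by norm_num)] at h1
  have h2 : ∑ s ∈ tri 11, cnt (fam 11 4 inc) s = ∑ t ∈ range 165, cb inc (abv.getD t []) := by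
    symm
    refine sum_bij (fun t _ => ofMask ((L 11 3).getD t 0)) ?_ ?_ ?_ ?_
    · intro t ht
      rw [mem_range] at ht
      have hl : t < (L 11 3).length := by rw [length_L]; exact ht
      have h5 : Sub 11 3 (ofMask ((L 11 3).getD t 0)) := by
        rw [List.getD_eq_getElem _ _ hl]
        exact ofMask_getElem_sub (by norm_num) hl
      rw [mem_tri]
      refine ⟨fun x hx => ?_, h5.2⟩
      rw [mem_below]
      exact mk_lt_iff.1 h5.1 x hx
    · intro t ht r hr htr
      rw [mem_range] at ht hr
      have hl : t < (L 11 3).length := by rw [length_L]; exact ht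
      have hl2 : r < (L 11 3).length := by rw [length_L]; exact hr
      rw [List.getD_eq_getElem _ _ hl, List.getD_eq_getElem _ _ hl2] at htr
      rw [← rk_getElem (by norm_num : 11 ≤ 13) hl, ← rk_getElem (by norm_num : 11 ≤ 13) hl2, htr]
    · intro s hs
      rw [mem_tri] at hs
      have h9 : Sub 11 3 s := by
        refine ⟨mk_lt_iff.2 fun x hx => ?_, hs.2⟩
        have h10 := hs.1 hx
        rw [mem_below] at h10
        exact h10
      obtain ⟨t, ht, h10⟩ := exists_pos h9
      exact ⟨t, mem_range.2 ht, h10⟩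
    · intro t ht
      rw [mem_range] at ht
      exact cb_eq_cnt ht
  rw [h2] at h1
  have h3 : ∀ n ≤ 165, ∑ t ∈ range n, (T.testBit t).toNat = pcb T n := by
    intro n
    induction n with
    | zero => intro _; rfl
    | succ n ih =>
      intro hn
      rw [sum_range_succ, ih (by omega)]
      rfl
  have h4 : ∑ t ∈ range 165, 1 ≤ ∑ t ∈ range 165, nT T inc t :=
    sum_le_sum fun t ht => by
      have := h t (mem_range.1 ht)
      omega
  have h5 : ∑ t ∈ range 165, nT T inc t =
      ∑ t ∈ range 165, cb inc (abv.getD t []) + ∑ t ∈ range 165, (T.testBit t).toNat := by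
    rw [← sum_add_distrib]
    rfl
  rw [h5, h3 165 le_rfl, hT, h1] at h4
  simp only [sum_const, card_range, smul_eq_mul, mul_one] at h4
  have h6 : (11).choose 4 = 330 := by decide
  rw [h6] at h4
  omega

/-- **a complete state has one solution** -/
theorem leaf {inc av : ℕ} (hT : pcb T 165 = 19) (hcap : cap ≤ 6)
    (h : ∀ t < 165, nT T inc t % 2 = 1) : CountLe (Sol T m forb cap inc av) 1 := by
  have key : ∀ e, Sol T m forb cap inc av e → ∀ q < 330, e.testBit q = inc.testBit q := by
    intro e he q hq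
    by_contra hne
    obtain ⟨h1, h2, -⟩ := he
    have hinc := card_complete hT h
    -- the added blocks
    obtain ⟨R, hR⟩ : ∃ R, R = fam 11 4 e \ fam 11 4 inc := ⟨_, rfl⟩
    have hsub : fam 11 4 inc ⊆ fam 11 4 e := by
      intro s hs
      rw [mem_fam_iff (by norm_num : 11 ≤ 13)] at hs ⊢
      exact ⟨hs.1, h2 _ hs.2⟩
    have hcard : R.card + pcb inc 330 = pcb e 330 := by
      have h3 := card_sdiff_add_card_eq_card hsub
      rw [← hR, card_fam 11 4 inc (by norm_num), card_fam 11 4 e (by norm_num)] at h3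
      exact h3
    have hcnt : ∀ s, cnt R s + cnt (fam 11 4 inc) s = cnt (fam 11 4 e) s := by
      intro s
      unfold cnt
      rw [← card_union_of_disjoint]
      · refine congrArg card ?_
        ext b
        rw [mem_union, mem_filter, mem_filter, mem_filter, hR, mem_sdiff]
        constructor
        · rintro (⟨⟨h3, -⟩, h4⟩ | ⟨h3, h4⟩)
          · exact ⟨h3, h4⟩
          · exact ⟨hsub h3, h4⟩
        · rintro ⟨h3, h4⟩
          by_cases h5 : b ∈ fam 11 4 inc
          · exact Or.inr ⟨h5, h4⟩
          · exact Or.inl ⟨⟨h3, h5⟩, h4⟩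
      · rw [disjoint_left]
        intro b hb hb2
        rw [mem_filter, hR, mem_sdiff] at hb
        exact hb.1.2 (mem_filter.1 hb2).1
    have hl : q < (L 11 4).length := by rw [length_L]; exact hq
    have hqR : ofMask ((L 11 4)[q]) ∈ R := by
      rw [hR, mem_sdiff, mem_fam_iff (by norm_num : 11 ≤ 13), mem_fam_iff (by norm_num : 11 ≤ 13),
        rk_getElem (by norm_num : 11 ≤ 13) hl]
      have h3 : e.testBit q = true ∧ inc.testBit q = false := by
        cases h4 : inc.testBit q
        · refine ⟨?_, rfl⟩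
          rw [h4] at hne
          simpa using hne
        · rw [h4, h2 q h4] at hne
          exact absurd rfl hne
      refine ⟨⟨ofMask_getElem_sub (by norm_num) hl, h3.1⟩, fun h4 => ?_⟩
      rw [h3.2] at h4
      exact Bool.false_ne_true h4.2
    have h5 := five_le (R := R) (fun b hb => by
        rw [hR, mem_sdiff] at hb
        exact (sub_of_mem_fam (by norm_num) hb.1).2) (fun b hb s hs hs3 => by
        rw [hR, mem_sdiff] at hb
        have h6 : Sub 11 3 s := by
          refine ⟨mk_lt_iff.2 fun x hx => ?_, hs3⟩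
          exact mk_lt_iff.1 (sub_of_mem_fam (by norm_num) hb.1).1 x (hs hx)
        obtain ⟨t, ht, h7⟩ := exists_pos h6
        have h8 := h t ht
        have h9 := h1.odd t ht
        unfold nT at h8 h9
        rw [cb_eq_cnt ht, h7] at h8 h9
        have h10 := hcnt s
        omega) ⟨_, hqR⟩
    have h6 := h1.num
    omega
  intro F hF
  rw [card_le_one]
  intro a ha b hb
  refine Nat.eq_of_testBit_eq fun q => ?_
  by_cases hq : q < 330
  · rw [key a (hF a ha) q hq, key b (hF b hb) q hq]
  · rw [Nat.testBit_lt_two_pow (lt_of_lt_of_le (hF a ha).1.lt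
      (Nat.pow_le_pow_right (by norm_num) (by omega))),
      Nat.testBit_lt_two_pow (lt_of_lt_of_le (hF b hb).1.lt
      (Nat.pow_le_pow_right (by norm_num) (by omega)))]

end Pool.Agent.Helper58.TB
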