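import Pool.Agent.Helper58.TB.Bridge

/-!
MP_8ee768_co, project TH-Y': soundness of a search for the members of a run, independent of the
representation of the states.

`Sol inc av e`: the code `e` is good, contains all the blocks of `inc`, and all its other blocks are in
`av`. The search splits at a block of `av` (`split`), stops when an even triple has no block of `av` above
it (`dead_row`), when the excesses are too large, and at a complete state (`leaf`: one solution).
-/

set_option autoImplicit false

namespace Pool.Agent.Helper58.TB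

open Finset
open Pool.Agent.Helper79.CV (L length_L)
open Pool.Agent.Helper69.TY (CountLe Ent abv abv_eq xb parL pcb above mem_above)

/-- good codes between `inc` and `inc ||| av` -/
def Sol (T m : ℕ) (forb : List ℕ) (cap inc av e : ℕ) : Prop :=
  Good T m forb cap e ∧ (∀ q, inc.testBit q = true → e.testBit q = true) ∧
    ∀ q, e.testBit q = true → inc.testBit q = true ∨ av.testBit q = true

section

variable {T m : ℕ} {forb : List ℕ} {cap : ℕ}

theorem countLe_mono {P Q : ℕ → Prop} (h : ∀ e, P e → Q e) {K : ℕ} (hK : CountLe Q K) :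
    CountLe P K := fun F hF => hK F fun e he => h e (hF e he)

theorem countLe_le {P : ℕ → Prop} {K K' : ℕ} (h : K ≤ K') (hK : CountLe P K) : CountLe P K' :=
  fun F hF => (hK F hF).trans h

theorem countLe_split {P Q R : ℕ → Prop} (h : ∀ e, P e → Q e ∨ R e) {K1 K2 : ℕ}
    (hQ : CountLe Q K1) (hR : CountLe R K2) : CountLe P (K1 + K2) := by
  classical
  intro F hF
  have h1 := card_filter_add_card_filter_not (s := F) (p := fun e => Q e)
  have h2 := hQ (F.filter fun e => Q e) fun e he => (mem_filter.1 he).2
  have h3 := hR (F.filter fun e => ¬ Q e) fun e he => by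
    rw [mem_filter] at he
    exact (h e (hF e he.1)).resolve_left he.2
  omega

theorem countLe_zero {P : ℕ → Prop} (h : ∀ e, ¬ P e) : CountLe P 0 := by
  intro F hF
  rw [Nat.le_zero, card_eq_zero, eq_empty_iff_forall_notMem]
  exact fun e he => h e (hF e he)

/-- splitting at a block -/
theorem split {inc av inc' av1 av2 q K1 K2 : ℕ}
    (h1 : ∀ r, inc'.testBit r = true → inc.testBit r = true ∨ r = q)
    (h1' : ∀ r, inc.testBit r = true → inc'.testBit r = true) (h1q : inc'.testBit q = true)
    (h2 : ∀ r, r ≠ q → av.testBit r = true → av1.testBit r = true)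
    (h3 : ∀ r, r ≠ q → av.testBit r = true → av2.testBit r = true)
    (hinc : inc.testBit q = false)
    (k1 : CountLe (Sol T m forb cap inc' av1) K1) (k2 : CountLe (Sol T m forb cap inc av2) K2) :
    CountLe (Sol T m forb cap inc av) (K1 + K2) := by
  refine countLe_split (fun e he => ?_) k1 k2
  obtain ⟨he1, he2, he3⟩ := he
  by_cases hq : e.testBit q = true
  · left
    refine ⟨he1, fun r hr => ?_, fun r hr => ?_⟩
    · rcases h1 r hr with h | rfl
      · exact he2 r h
      · exact hq
    · by_cases hrq : r = q
      · rw [hrq]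
        exact Or.inl h1q
      · rcases he3 r hr with h | h
        · exact Or.inl (h1' r h)
        · exact Or.inr (h2 r hrq h)
  · right
    refine ⟨he1, he2, fun r hr => ?_⟩
    have hrq : r ≠ q := fun h => hq (h ▸ hr)
    rcases he3 r hr with h | h
    · exact Or.inl h
    · exact Or.inr (h3 r hrq h)

theorem cb_congr {e e' : ℕ} {l : List ℕ} (h : ∀ q ∈ l, e.testBit q = e'.testBit q) :
    cb e l = cb e' l := by
  induction l with
  | nil => rfl
  | cons q l ih =>
    show (e.testBit q).toNat + cb e l = (e'.testBit q).toNat + cb e' l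
    rw [h q (List.mem_cons_self ..), ih fun r hr => h r (List.mem_cons_of_mem _ hr)]

theorem cb_mono {e e' : ℕ} {l : List ℕ} (h : ∀ q ∈ l, e.testBit q = true → e'.testBit q = true) :
    cb e l ≤ cb e' l := by
  induction l with
  | nil => exact le_rfl
  | cons q l ih =>
    have h1 := ih fun r hr => h r (List.mem_cons_of_mem _ hr)
    have h2 := h q (List.mem_cons_self ..)
    show (e.testBit q).toNat + cb e l ≤ (e'.testBit q).toNat + cb e' l
    have h3 : (e.testBit q).toNat ≤ (e'.testBit q).toNat := by
      cases h4 : e.testBit q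
      · exact Nat.zero_le _
      · rw [h2 h4]
    omega

/-- an even triple without available block above it -/
theorem dead_row {inc av t : ℕ} (ht : t < 165) (hev : nT T inc t % 2 = 0)
    (hav : ∀ q ∈ abv.getD t [], av.testBit q = true → inc.testBit q = true) (e : ℕ) :
    ¬ Sol T m forb cap inc av e := by
  rintro ⟨he1, he2, he3⟩
  have h1 : cb e (abv.getD t []) = cb inc (abv.getD t []) := by
    refine cb_congr fun q hq => ?_
    rw [Bool.eq_iff_iff]
    refine ⟨fun h => ?_, he2 q⟩
    rcases he3 q h with h2 | h2
    · exact h2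
    · exact hav q hq h2
  have h2 := he1.odd t ht
  unfold nT at h2 hev
  rw [h1] at h2
  omega

theorem nT_mono {inc e : ℕ} (h : ∀ q, inc.testBit q = true → e.testBit q = true) (t : ℕ) :
    nT T inc t ≤ nT T e t := by
  unfold nT
  have := cb_mono (l := abv.getD t []) fun q _ => h q
  omega

theorem hC_mono {inc e : ℕ} (h : ∀ q, inc.testBit q = true → e.testBit q = true) (a : ℕ) :
    hC T inc a ≤ hC T e a := by
  unfold hC
  exact sum_le_sum fun t _ => Nat.div_le_div_right (nT_mono h t)

/-- bounds for the excesses of a state -/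
theorem bounds {inc av e : ℕ} (h : Sol T m forb cap inc av e) : ∃ mu : ℕ → ℕ,
    (∀ a < 11, hC T inc a + hP T a ≤ 1 + 3 * mu a) ∧ ∑ a ∈ range 11, mu a ≤ cap ∧
      (∀ a < 11, m.testBit a = true → mu a = 0) ∧
      ∀ q ∈ forb, q < 2 ^ 11 → ∃ a < 11, q.testBit a = true ∧ mu a ≠ 0 := by
  obtain ⟨h1, h2, h3⟩ := h
  obtain ⟨mu, h4, h5, h6, h7⟩ := h1.ex
  refine ⟨mu, fun a ha => ?_, h5, h6, h7⟩
  have h8 := (h4 a ha).2
  have h9 := hC_mono (T := T) h2 a
  omega

/-! ## adding a block -/

theorem abv_nodup : ∀ t < 165, (abv.getD t []).Nodup := by decide +kernel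

theorem abv_lt : ∀ t < 165, ∀ q ∈ abv.getD t [], q < 330 := by decide +kernel

theorem cb_insert {inc inc' q : ℕ} (h1 : ∀ r, r ≠ q → inc'.testBit r = inc.testBit r)
    (h2 : inc'.testBit q = true) (h3 : inc.testBit q = false) {l : List ℕ} (hl : l.Nodup) :
    cb inc' l = cb inc l + (decide (q ∈ l)).toNat := by
  induction l with
  | nil => simp [cb]
  | cons r l ih =>
    rw [List.nodup_cons] at hl
    show (inc'.testBit r).toNat + cb inc' l = (inc.testBit r).toNat + cb inc l + _
    rw [ih hl.2]
    by_cases hr : r = q
    · subst hr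
      have h4 : decide (r ∈ l) = false := decide_eq_false hl.1
      have h5 : decide (r ∈ r :: l) = true := decide_eq_true (List.mem_cons_self ..)
      rw [h2, h3, h4, h5]
      simp only [Bool.toNat_true, Bool.toNat_false]
      omega
    · have h5 : decide (q ∈ r :: l) = decide (q ∈ l) := by
        rw [Bool.eq_iff_iff, decide_eq_true_eq, decide_eq_true_eq, List.mem_cons]
        exact ⟨fun h => h.resolve_left fun h6 => hr h6.symm, Or.inr⟩
      rw [h1 r hr, h5]
      omega

theorem nT_insert {inc inc' q : ℕ} (h1 : ∀ r, r ≠ q → inc'.testBit r = inc.testBit r)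
    (h2 : inc'.testBit q = true) (h3 : inc.testBit q = false) {t : ℕ} (ht : t < 165) :
    nT T inc' t = nT T inc t + (decide (q ∈ abv.getD t [])).toNat := by
  unfold nT
  rw [cb_insert h1 h2 h3 (abv_nodup t ht)]
  omega

/-- the excess after adding a block: the odd triples of the block -/
theorem hC_insert {inc inc' q : ℕ} (h1 : ∀ r, r ≠ q → inc'.testBit r = inc.testBit r)
    (h2 : inc'.testBit q = true) (h3 : inc.testBit q = false) (a : ℕ) :
    hC T inc' a = hC T inc a + ((range 165).filter fun t => ((L 11 3).getD t 0).testBit a = true ∧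
      q ∈ abv.getD t [] ∧ nT T inc t % 2 = 1).card := by
  unfold hC
  have h4 : ∀ t ∈ (range 165).filter (fun t => ((L 11 3).getD t 0).testBit a = true),
      nT T inc' t / 2 = nT T inc t / 2 +
        if (q ∈ abv.getD t [] ∧ nT T inc t % 2 = 1) then 1 else 0 := by
    intro t ht
    rw [mem_filter, mem_range] at ht
    rw [nT_insert h1 h2 h3 ht.1]
    by_cases hq : q ∈ abv.getD t []
    · rw [decide_eq_true hq]
      simp only [hq, true_and, Bool.toNat_true]
      split <;> omega
    · rw [decide_eq_false hq, if_neg fun h => hq h.1]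
      simp only [Bool.toNat_false, Nat.add_zero]
  rw [sum_congr rfl h4, sum_add_distrib, ← card_filter, filter_filter]

end

end Pool.Agent.Helper58.TB
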